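import Pool.Agent.H74.WG.Stm

/-! # Project WG, stub ADD: finite linear combinations of solutions -/

set_option autoImplicit false

namespace Pool.Agent.H74.WG.T.ADD

open MeasureTheory Filter Topology Set Pool.Agent.H74.OD
open scoped ENNReal

/-- finite linear combinations -/
theorem main : S_ADD := by
  intro N ι s σ w wt wx wy wxx wyy wxy h
  constructor
  · intro t x y ht hx
    exact HasDerivAt.fun_sum fun i hi => ((h i hi).dt t x y ht hx).const_mul (σ i)
  · intro t x y ht hx
    exact HasDerivAt.fun_sum fun i hi => ((h i hi).dx t x y ht hx).const_mul (σ i)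
  · intro t x y ht hx
    exact HasDerivAt.fun_sum fun i hi => ((h i hi).dy t x y ht hx).const_mul (σ i)
  · intro t x y ht hx
    exact HasDerivAt.fun_sum fun i hi => ((h i hi).dxx t x y ht hx).const_mul (σ i)
  · intro t x y ht hx
    exact HasDerivAt.fun_sum fun i hi => ((h i hi).dyy t x y ht hx).const_mul (σ i)
  · intro t x y ht hx
    exact HasDerivAt.fun_sum fun i hi => ((h i hi).dxy t x y ht hx).const_mul (σ i)
  · intro t x y ht hx
    exact HasDerivAt.fun_sum fun i hi => ((h i hi).dyx t x y ht hx).const_mul (σ i)
  · intro t x y ht hx
    rw [← Finset.sum_add_distrib]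
    apply Finset.sum_congr rfl
    intro i hi
    rw [(h i hi).eq t x y ht hx, mul_add]
  · exact continuousOn_finsetSum s fun i hi => continuousOn_const.mul (h i hi).ct
  · exact continuousOn_finsetSum s fun i hi => continuousOn_const.mul (h i hi).cx
  · exact continuousOn_finsetSum s fun i hi => continuousOn_const.mul (h i hi).cy
  · exact continuousOn_finsetSum s fun i hi => continuousOn_const.mul (h i hi).cxx
  · exact continuousOn_finsetSum s fun i hi => continuousOn_const.mul (h i hi).cyy
  · exact continuousOn_finsetSum s fun i hi => continuousOn_const.mul (h i hi).cxy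

end Pool.Agent.H74.WG.T.ADD
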