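import Pool.Agent.H74.WG.Stm

/-! # WG-ASY: the antisymmetric combination solves the heat equation -/

set_option autoImplicit false

namespace Pool.Agent.H74.WG.T.ASY

open MeasureTheory Filter Topology Set Pool.Agent.H74.OD Pool.Agent.H74.WG
open scoped ENNReal

theorem sol_mono {N N' : Set (ℝ × ℝ)} {w wt wx wy wxx wyy wxy : ℝ → ℝ → ℝ → ℝ}
    (h : Sol N w wt wx wy wxx wyy wxy) (hN : N' ⊆ N) : Sol N' w wt wx wy wxx wyy wxy where
  dt := fun t x y ht hq => h.dt t x y ht (hN hq)
  dx := fun t x y ht hq => h.dx t x y ht (hN hq)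
  dy := fun t x y ht hq => h.dy t x y ht (hN hq)
  dxx := fun t x y ht hq => h.dxx t x y ht (hN hq)
  dyy := fun t x y ht hq => h.dyy t x y ht (hN hq)
  dxy := fun t x y ht hq => h.dxy t x y ht (hN hq)
  dyx := fun t x y ht hq => h.dyx t x y ht (hN hq)
  eq := fun t x y ht hq => h.eq t x y ht (hN hq)
  ct := h.ct.mono fun _ hq => ⟨hq.1, hN hq.2⟩
  cx := h.cx.mono fun _ hq => ⟨hq.1, hN hq.2⟩
  cy := h.cy.mono fun _ hq => ⟨hq.1, hN hq.2⟩
  cxx := h.cxx.mono fun _ hq => ⟨hq.1, hN hq.2⟩
  cyy := h.cyy.mono fun _ hq => ⟨hq.1, hN hq.2⟩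
  cxy := h.cxy.mono fun _ hq => ⟨hq.1, hN hq.2⟩

/-- the sign -/
noncomputable def sgn (β : Bool) : ℝ := if β then 1 else -1

theorem sgn_sq (β : Bool) : sgn β ^ 2 = 1 := by
  cases β <;> simp [sgn]

theorem main (hr : S_ROT) (ha : S_ADD) : S_ASY := by
  intro m A T b w wt wx wy wxx wyy wxy hA hT
  have hS : Sol {q : ℝ × ℝ | |q.1| < 4 * A} w wt wx wy wxx wyy wxy :=
    { dt := fun t x y ht h => hT.dt t x y ht h
      dx := fun t x y ht h => hT.dx t x y ht h
      dy := fun t x y ht h => hT.dy t x y ht h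
      dxx := fun t x y ht h => hT.dxx t x y ht h
      dyy := fun t x y ht h => hT.dyy t x y ht h
      dxy := fun t x y ht h => hT.dxy t x y ht h
      dyx := fun t x y ht h => hT.dyx t x y ht h
      eq := fun t x y ht h => hT.eq t x y ht h
      ct := hT.ct
      cx := hT.cx
      cy := hT.cy
      cxx := hT.cxx
      cyy := hT.cyy
      cxy := hT.cxy }
  have hN : IsOpen {q : ℝ × ℝ | |q.1| < 4 * A} :=
    isOpen_lt (continuous_fst.abs) continuous_const
  have key := fun i : ℕ × Bool =>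
    sol_mono (N' := {q : ℝ × ℝ | q.1 ^ 2 + q.2 ^ 2 < (2 * A) ^ 2})
      (hr _ w wt wx wy wxx wyy wxy hN hS (Real.cos (ang m i.1)) (-(sgn i.2 * Real.sin (ang m i.1)))
        (Real.sin (ang m i.1)) (sgn i.2 * Real.cos (ang m i.1)) (2 * A) (2 * A)
        (by
          have h1 := sgn_sq i.2
          have h2 := Real.sin_sq_add_cos_sq (ang m i.1)
          calc Real.cos (ang m i.1) ^ 2 + (-(sgn i.2 * Real.sin (ang m i.1))) ^ 2 =
              Real.cos (ang m i.1) ^ 2 + sgn i.2 ^ 2 * Real.sin (ang m i.1) ^ 2 := by ring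
            _ = 1 := by rw [h1]; linarith)
        (by
          have h1 := sgn_sq i.2
          have h2 := Real.sin_sq_add_cos_sq (ang m i.1)
          calc Real.sin (ang m i.1) ^ 2 + (sgn i.2 * Real.cos (ang m i.1)) ^ 2 =
              Real.sin (ang m i.1) ^ 2 + sgn i.2 ^ 2 * Real.cos (ang m i.1) ^ 2 := by ring
            _ = 1 := by rw [h1]; linarith)
        (by
          have h1 := sgn_sq i.2
          calc Real.cos (ang m i.1) * Real.sin (ang m i.1) +
              -(sgn i.2 * Real.sin (ang m i.1)) * (sgn i.2 * Real.cos (ang m i.1)) =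
              Real.cos (ang m i.1) * Real.sin (ang m i.1) * (1 - sgn i.2 ^ 2) := by ring
            _ = 0 := by rw [h1]; ring))
      (by
        intro q hq
        have hq' : q.1 ^ 2 + q.2 ^ 2 < (2 * A) ^ 2 := hq
        show |Real.cos (ang m i.1) * q.1 + -(sgn i.2 * Real.sin (ang m i.1)) * q.2 + 2 * A| < 4 * A
        have h1 := sgn_sq i.2
        have h2 := Real.sin_sq_add_cos_sq (ang m i.1)
        have h3 : (Real.cos (ang m i.1) * q.1 + -(sgn i.2 * Real.sin (ang m i.1)) * q.2) ^ 2 ≤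
            q.1 ^ 2 + q.2 ^ 2 := by
          have h4 : 0 ≤ (Real.cos (ang m i.1) * q.2 + sgn i.2 * Real.sin (ang m i.1) * q.1) ^ 2 :=
            sq_nonneg _
          have h5 : (Real.cos (ang m i.1) * q.1 + -(sgn i.2 * Real.sin (ang m i.1)) * q.2) ^ 2 +
              (Real.cos (ang m i.1) * q.2 + sgn i.2 * Real.sin (ang m i.1) * q.1) ^ 2 =
              (Real.cos (ang m i.1) ^ 2 + sgn i.2 ^ 2 * Real.sin (ang m i.1) ^ 2) *
                (q.1 ^ 2 + q.2 ^ 2) := by ring
          rw [h1, one_mul] at h5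
          have h6 : Real.cos (ang m i.1) ^ 2 + Real.sin (ang m i.1) ^ 2 = 1 := by linarith
          rw [h6, one_mul] at h5
          linarith
        have h7 : |Real.cos (ang m i.1) * q.1 + -(sgn i.2 * Real.sin (ang m i.1)) * q.2| < 2 * A :=
          abs_lt_of_sq_lt_sq (by linarith) (by linarith)
        calc |Real.cos (ang m i.1) * q.1 + -(sgn i.2 * Real.sin (ang m i.1)) * q.2 + 2 * A| ≤
            |Real.cos (ang m i.1) * q.1 + -(sgn i.2 * Real.sin (ang m i.1)) * q.2| + |2 * A| :=
              abs_add_le _ _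
          _ < 4 * A := by
              rw [abs_of_pos (by linarith : 0 < 2 * A)]
              linarith)
  have H := ha {q : ℝ × ℝ | q.1 ^ 2 + q.2 ^ 2 < (2 * A) ^ 2} (ℕ × Bool)
    (Finset.range m ×ˢ Finset.univ) (fun i => sgn i.2) _ _ _ _ _ _ _ (fun i _ => key i)
  have e1 : asym m A w = fun t x y => ∑ i ∈ Finset.range m ×ˢ (Finset.univ : Finset Bool),
      sgn i.2 * w t (Real.cos (ang m i.1) * x + -(sgn i.2 * Real.sin (ang m i.1)) * y + 2 * A)
        (Real.sin (ang m i.1) * x + sgn i.2 * Real.cos (ang m i.1) * y + 2 * A) := by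
    funext t x y
    rw [Finset.sum_product]
    unfold asym
    refine Finset.sum_congr rfl fun k _ => ?_
    rw [Fintype.sum_bool]
    simp only [sgn, mv, if_true, Bool.false_eq_true, if_false]
    ring
  have e2 : asymx m A wx wy = fun t x y => ∑ i ∈ Finset.range m ×ˢ (Finset.univ : Finset Bool),
      sgn i.2 * (Real.cos (ang m i.1) *
        wx t (Real.cos (ang m i.1) * x + -(sgn i.2 * Real.sin (ang m i.1)) * y + 2 * A)
        (Real.sin (ang m i.1) * x + sgn i.2 * Real.cos (ang m i.1) * y + 2 * A) +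
        Real.sin (ang m i.1) *
        wy t (Real.cos (ang m i.1) * x + -(sgn i.2 * Real.sin (ang m i.1)) * y + 2 * A)
        (Real.sin (ang m i.1) * x + sgn i.2 * Real.cos (ang m i.1) * y + 2 * A)) := by
    funext t x y
    rw [Finset.sum_product]
    unfold asymx
    refine Finset.sum_congr rfl fun k _ => ?_
    rw [Fintype.sum_bool]
    simp only [sgn, mv, if_true, Bool.false_eq_true, if_false]
    ring
  have e3 : asymy m A wx wy = fun t x y => ∑ i ∈ Finset.range m ×ˢ (Finset.univ : Finset Bool),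
      sgn i.2 * (-(sgn i.2 * Real.sin (ang m i.1)) *
        wx t (Real.cos (ang m i.1) * x + -(sgn i.2 * Real.sin (ang m i.1)) * y + 2 * A)
        (Real.sin (ang m i.1) * x + sgn i.2 * Real.cos (ang m i.1) * y + 2 * A) +
        sgn i.2 * Real.cos (ang m i.1) *
        wy t (Real.cos (ang m i.1) * x + -(sgn i.2 * Real.sin (ang m i.1)) * y + 2 * A)
        (Real.sin (ang m i.1) * x + sgn i.2 * Real.cos (ang m i.1) * y + 2 * A)) := by
    funext t x y
    rw [Finset.sum_product]
    unfold asymy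
    refine Finset.sum_congr rfl fun k _ => ?_
    rw [Fintype.sum_bool]
    simp only [sgn, mv, if_true, Bool.false_eq_true, if_false]
    ring
  rw [e1, e2, e3]
  exact ⟨_, _, _, _, H⟩

end Pool.Agent.H74.WG.T.ASY
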