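import Pool.Agent.H74.WG.Stm

/-! # WG-CHV: change of variables -/

set_option autoImplicit false

namespace Pool.Agent.H74.WG.T.CHV

open MeasureTheory Filter Topology Set Pool.Agent.H74.OD
open scoped ENNReal

/-- the linear part -/
private noncomputable def lin (c s σ : ℝ) : (ℝ × ℝ) →ₗ[ℝ] (ℝ × ℝ) :=
  Matrix.toLin (Module.Basis.finTwoProd ℝ) (Module.Basis.finTwoProd ℝ) !![c, -(σ * s); s, σ * c]

private theorem lin_apply (c s σ : ℝ) (q : ℝ × ℝ) :
    lin c s σ q = (c * q.1 + -(σ * s) * q.2, s * q.1 + σ * c * q.2) := by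
  unfold lin
  rw [Matrix.toLin_finTwoProd_apply]

private theorem lin_det {c s σ : ℝ} (h : c ^ 2 + s ^ 2 = 1) : LinearMap.det (lin c s σ) = σ := by
  unfold lin
  rw [LinearMap.det_toLin, Matrix.det_fin_two_of]
  linear_combination σ * h

theorem mv_mem {m : ℕ} {A : ℝ} (hA : 0 < A) (k : ℕ) {σ : ℝ} (hσ : σ = 1 ∨ σ = -1) {q : ℝ × ℝ}
    (hq : q ∈ Sector m A) : (mv m A k σ q).1 ∈ Ioo A (3 * A) ∧ (mv m A k σ q).2 ∈ Ioo A (3 * A) := by
  have hσ2 : σ ^ 2 = 1 := by
    rcases hσ with h | h <;> rw [h] <;> norm_num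
  have hcs := Real.sin_sq_add_cos_sq (ang m k)
  have h1 : q.1 ^ 2 + q.2 ^ 2 < A ^ 2 := hq.1
  obtain ⟨u, hu⟩ : ∃ u, u = Real.cos (ang m k) * q.1 + -(σ * Real.sin (ang m k)) * q.2 := ⟨_, rfl⟩
  obtain ⟨v, hv⟩ : ∃ v, v = Real.sin (ang m k) * q.1 + σ * Real.cos (ang m k) * q.2 := ⟨_, rfl⟩
  have huv : u ^ 2 + v ^ 2 = q.1 ^ 2 + q.2 ^ 2 := by
    rw [hu, hv]
    linear_combination (q.1 ^ 2 + σ ^ 2 * q.2 ^ 2) * hcs + q.2 ^ 2 * hσ2
  have hu1 : |u| < A := abs_lt_of_sq_lt_sq (by nlinarith [sq_nonneg v]) hA.le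
  have hv1 : |v| < A := abs_lt_of_sq_lt_sq (by nlinarith [sq_nonneg u]) hA.le
  rw [abs_lt] at hu1 hv1
  have e1 : (mv m A k σ q).1 = u + 2 * A := by rw [hu]; rfl
  have e2 : (mv m A k σ q).2 = v + 2 * A := by rw [hv]; rfl
  rw [e1, e2]
  exact ⟨⟨by linarith, by linarith⟩, ⟨by linarith, by linarith⟩⟩

theorem mv_cont (m : ℕ) (A : ℝ) (k : ℕ) (σ : ℝ) : Continuous (mv m A k σ) := by
  unfold mv
  fun_prop

/-- WG-CHV -/
theorem main : S_CHV := by
  intro m A k σ G hA hσ
  have hσ2 : σ ^ 2 = 1 := by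
    rcases hσ with h | h <;> rw [h] <;> norm_num
  have hσ0 : σ ≠ 0 := by
    rcases hσ with h | h <;> rw [h] <;> norm_num
  have hcs := Real.sin_sq_add_cos_sq (ang m k)
  have hcs' : Real.cos (ang m k) ^ 2 + Real.sin (ang m k) ^ 2 = 1 := by linarith
  have hdet := lin_det (σ := σ) hcs'
  have hmv : ∀ q, mv m A k σ q =
      lin (Real.cos (ang m k)) (Real.sin (ang m k)) σ q + (2 * A, 2 * A) := by
    intro q
    rw [lin_apply]
    rfl
  have hinj : Function.Injective (mv m A k σ) := by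
    intro q q' h
    have h1 := congrArg Prod.fst h
    have h2 := congrArg Prod.snd h
    have h1' : Real.cos (ang m k) * q.1 + -(σ * Real.sin (ang m k)) * q.2 + 2 * A =
      Real.cos (ang m k) * q'.1 + -(σ * Real.sin (ang m k)) * q'.2 + 2 * A := h1
    have h2' : Real.sin (ang m k) * q.1 + σ * Real.cos (ang m k) * q.2 + 2 * A =
      Real.sin (ang m k) * q'.1 + σ * Real.cos (ang m k) * q'.2 + 2 * A := h2
    have e1 : q.1 = q'.1 := by
      linear_combination Real.cos (ang m k) * h1' + Real.sin (ang m k) * h2' -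
        (q.1 - q'.1) * hcs
    have e2 : σ * q.2 = σ * q'.2 := by
      linear_combination -Real.sin (ang m k) * h1' + Real.cos (ang m k) * h2' -
        σ * (q.2 - q'.2) * hcs
    exact Prod.ext e1 (mul_left_cancel₀ hσ0 e2)
  have hemb : MeasurableEmbedding (mv m A k σ) := (mv_cont m A k σ).measurableEmbedding hinj
  have hmp : MeasurePreserving (mv m A k σ) volume volume := by
    have h1 : MeasurePreserving (lin (Real.cos (ang m k)) (Real.sin (ang m k)) σ)
        (volume : Measure (ℝ × ℝ)) volume := by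
      refine ⟨(LinearMap.continuous_of_finiteDimensional _).measurable, ?_⟩
      rw [Measure.map_linearMap_addHaar_eq_smul_addHaar volume (by rw [hdet]; exact hσ0), hdet]
      have : |σ⁻¹| = 1 := by
        rcases hσ with h | h <;> rw [h] <;> norm_num
      rw [this, ENNReal.ofReal_one, one_smul]
    have h2 : MeasurePreserving (fun q : ℝ × ℝ => q + (2 * A, 2 * A)) volume volume :=
      measurePreserving_add_right volume _
    have h3 := h2.comp h1
    have e : (fun q : ℝ × ℝ => q + (2 * A, 2 * A)) ∘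
        (lin (Real.cos (ang m k)) (Real.sin (ang m k)) σ) = mv m A k σ := by
      funext q
      rw [hmv]
      rfl
    rwa [e] at h3
  rw [hmp.setLIntegral_comp_emb hemb G (Sector m A)]
  refine lintegral_mono_set ?_
  rintro _ ⟨q, hq, rfl⟩
  obtain ⟨h1, h2⟩ := mv_mem hA k hσ hq
  refine ⟨⟨?_, ?_⟩, ⟨?_, ?_⟩⟩
  · exact hA.trans h1.1
  · exact h1.2.trans (by linarith)
  · exact hA.trans h2.1
  · exact h2.2.trans (by linarith)

end Pool.Agent.H74.WG.T.CHV
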