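import Pool.Agent.H74.WG.Stm

set_option autoImplicit false

/-! # WG-EXT: the extension is square integrable (helper83) -/

namespace Pool.Agent.H74.WG.T.EXT

open MeasureTheory Filter Topology Set Pool.Agent.H74.OD

theorem meas (m : ℕ) (A : ℝ) : MeasurableSet (Sector m A) := by
  have h1 : MeasurableSet {q : ℝ × ℝ | q.1 ^ 2 + q.2 ^ 2 < A ^ 2} :=
    measurableSet_lt (by fun_prop) (by fun_prop)
  have h2 : MeasurableSet {q : ℝ × ℝ | 0 < q.2} := measurableSet_lt (by fun_prop) (by fun_prop)
  have h3 : MeasurableSet {q : ℝ × ℝ |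
      0 < Real.sin (Real.pi / m) * q.1 - Real.cos (Real.pi / m) * q.2} :=
    measurableSet_lt (by fun_prop) (by fun_prop)
  exact h1.inter (h2.inter h3)

theorem main : S_EXT := by
  intro m A w₀ hm hA h
  have h1 : MemLp ((Sector m A).indicator w₀) 2 volume :=
    (memLp_indicator_iff_restrict (meas m A)).2 h
  have h2 : MeasurePreserving (fun q : ℝ × ℝ => q - (2 * A, 2 * A)) volume volume :=
    measurePreserving_sub_right volume (2 * A, 2 * A)
  have h3 := h1.comp_measurePreserving h2
  have h4 : ((Sector m A).indicator w₀) ∘ (fun q : ℝ × ℝ => q - (2 * A, 2 * A)) = ext m A w₀ := by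
    funext q
    rfl
  rw [h4] at h3
  exact h3.restrict _

end Pool.Agent.H74.WG.T.EXT
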