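import Pool.Agent.H74.WG.Stm

/-!
# Project WG: Fubini on the piece over the sector (FUW, helper62; copy of OD-FUB of helper22)
-/

set_option autoImplicit false

namespace Pool.Agent.H74.WG.T.FUW

open MeasureTheory Filter Topology Set
open scoped ENNReal

open Pool.Agent.H74.WG

/-- the coordinates `(x 2, (x 0, x 1))` -/
def phi : (Fin 3 → ℝ) ≃ᵐ ℝ × (ℝ × ℝ) :=
  (MeasurableEquiv.piFinSuccAbove (fun _ : Fin 3 => ℝ) 2).trans
    ((MeasurableEquiv.refl ℝ).prodCongr MeasurableEquiv.finTwoArrow)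

theorem phi_apply (x : Fin 3 → ℝ) : phi x = (x 2, (x 0, x 1)) := rfl

theorem phi_mp : MeasurePreserving phi volume volume := by
  have h1 := volume_preserving_piFinSuccAbove (fun _ : Fin 3 => ℝ) 2
  have h2 : MeasurePreserving ((MeasurableEquiv.refl ℝ).prodCongr
      (MeasurableEquiv.finTwoArrow (α := ℝ))) volume volume :=
    (MeasurePreserving.id (volume : Measure ℝ)).prod (volume_preserving_finTwoArrow ℝ)
  exact h2.comp h1

theorem main : S_FUW := by
  intro m A c G hc hG
  have hpre : SDuct m A c = phi ⁻¹' (Ioo (-c) c ×ˢ Sector m A) := by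
    ext x
    simp only [SDuct, mem_preimage, phi_apply, mem_prod, mem_Ioo, mem_ofPred_eq, abs_lt]
    tauto
  have h1 : ∫⁻ x in SDuct m A c, G (x 0, x 1) = ∫⁻ q in Ioo (-c) c ×ˢ Sector m A, G q.2 := by
    rw [hpre]
    exact phi_mp.setLIntegral_comp_preimage_emb phi.measurableEmbedding (fun q => G q.2) _
  rw [h1]
  have h2 : (volume : Measure (ℝ × (ℝ × ℝ))).restrict (Ioo (-c) c ×ˢ Sector m A) =
      ((volume : Measure ℝ).restrict (Ioo (-c) c)).prod
        ((volume : Measure (ℝ × ℝ)).restrict (Sector m A)) := by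
    rw [Measure.prod_restrict]
    rfl
  rw [h2]
  have h3 := lintegral_prod_mul (μ := (volume : Measure ℝ).restrict (Ioo (-c) c))
    (ν := (volume : Measure (ℝ × ℝ)).restrict (Sector m A)) (f := fun _ => (1 : ℝ≥0∞)) (g := G)
    aemeasurable_const hG
  simp only [one_mul, lintegral_one] at h3
  rw [h3]
  congr 1
  rw [Measure.restrict_apply_univ, Real.volume_Ioo]
  congr 1
  ring

end Pool.Agent.H74.WG.T.FUW
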