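import Pool.Agent.H74.WG.Stm

/-! # Stub WG-GEO: the images of the open sector are disjoint -/

set_option autoImplicit false

namespace Pool.Agent.H74.WG.T.GEO

open MeasureTheory Filter Topology Set Pool.Agent.H74.OD
open scoped ENNReal

lemma pos_of_sin {x : ℝ} (h1 : -Real.pi ≤ x) (h : 0 < Real.sin x) : 0 < x := by
  by_contra hx
  exact absurd h (not_lt.2 (Real.sin_nonpos_of_nonpos_of_neg_pi_le (not_lt.1 hx) h1))

lemma lt_pi_of_sin {x : ℝ} (h1 : x ≤ 2 * Real.pi) (h : 0 < Real.sin x) : x < Real.pi := by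
  by_contra hx
  have h2 := not_lt.1 hx
  have h3 : 0 ≤ Real.sin (x - Real.pi) :=
    Real.sin_nonneg_of_nonneg_of_le_pi (by linarith) (by linarith)
  rw [Real.sin_sub_pi] at h3
  linarith

lemma polar {m : ℕ} {A : ℝ} (hm : 1 ≤ m) {q : ℝ × ℝ} (hq : q ∈ Sector m A) :
    ∃ r θ : ℝ, 0 < r ∧ 0 < θ ∧ θ < Real.pi / m ∧ q.1 = r * Real.cos θ ∧ q.2 = r * Real.sin θ := by
  obtain ⟨-, h2, h3⟩ := hq
  set z : ℂ := ⟨q.1, q.2⟩ with hz
  have e1 : ‖z‖ * Real.cos z.arg = q.1 := Complex.norm_mul_cos_arg z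
  have e2 : ‖z‖ * Real.sin z.arg = q.2 := Complex.norm_mul_sin_arg z
  have hr : 0 < ‖z‖ := by
    rw [norm_pos_iff]
    intro h0
    have : z.im = 0 := by rw [h0]; rfl
    have : q.2 = 0 := this
    linarith
  have hm0 : (0 : ℝ) < Real.pi / m := div_pos Real.pi_pos (by exact_mod_cast hm)
  have hs : 0 < Real.sin z.arg := by
    rw [← e2] at h2
    exact (mul_pos_iff_of_pos_left hr).1 h2
  have hs2 : 0 < Real.sin (Real.pi / m - z.arg) := by
    have e3 : Real.sin (Real.pi / m) * q.1 - Real.cos (Real.pi / m) * q.2 =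
        ‖z‖ * Real.sin (Real.pi / m - z.arg) := by
      rw [Real.sin_sub, ← e1, ← e2]
      ring
    rw [e3] at h3
    exact (mul_pos_iff_of_pos_left hr).1 h3
  have h4 := pos_of_sin (Complex.neg_pi_lt_arg z).le hs
  have h5 := pos_of_sin (x := Real.pi / m - z.arg) (by linarith [Complex.arg_le_pi z]) hs2
  exact ⟨‖z‖, z.arg, hr, h4, by linarith, e1.symm, e2.symm⟩

lemma ext_mv (m : ℕ) (A : ℝ) (w₀ : ℝ × ℝ → ℝ) (k : ℕ) {σ : ℝ} (hσ : σ = 1 ∨ σ = -1) {q : ℝ × ℝ}
    {r θ : ℝ} (h1 : q.1 = r * Real.cos θ) (h2 : q.2 = r * Real.sin θ) :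
    ext m A w₀ (mv m A k σ q) = (Sector m A).indicator w₀
      (r * Real.cos (ang m k + σ * θ), r * Real.sin (ang m k + σ * θ)) := by
  have hc : Real.cos (σ * θ) = Real.cos θ := by
    rcases hσ with h | h
    · rw [h, one_mul]
    · rw [h, neg_one_mul, Real.cos_neg]
  have hs : Real.sin (σ * θ) = σ * Real.sin θ := by
    rcases hσ with h | h
    · rw [h, one_mul, one_mul]
    · rw [h, neg_one_mul, Real.sin_neg, neg_one_mul]
  unfold ext mv
  congr 2
  · simp only
    rw [h1, h2, Real.cos_add, hc, hs]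
    ring
  · simp only
    rw [h1, h2, Real.sin_add, hc, hs]
    ring

lemma out {m : ℕ} {A : ℝ} {w₀ : ℝ × ℝ → ℝ} {r φ : ℝ} (hr : 0 < r)
    (h : ¬ (0 < Real.sin φ ∧ 0 < Real.sin (Real.pi / m - φ))) :
    (Sector m A).indicator w₀ (r * Real.cos φ, r * Real.sin φ) = 0 := by
  refine indicator_of_notMem (fun hmem => h ?_) _
  obtain ⟨-, h2, h3⟩ := hmem
  have h2' : 0 < r * Real.sin φ := h2
  have h3' : 0 < Real.sin (Real.pi / m) * (r * Real.cos φ) - Real.cos (Real.pi / m) * (r * Real.sin φ) := h3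
  refine ⟨(mul_pos_iff_of_pos_left hr).1 h2', ?_⟩
  have e3 : Real.sin (Real.pi / m) * (r * Real.cos φ) - Real.cos (Real.pi / m) * (r * Real.sin φ) =
      r * Real.sin (Real.pi / m - φ) := by
    rw [Real.sin_sub]
    ring
  rw [e3] at h3'
  exact (mul_pos_iff_of_pos_left hr).1 h3'

theorem main : S_GEO := by
  intro m A w₀ hm hA q hq
  obtain ⟨r, θ, hr, hθ, hθm, h1, h2⟩ := polar hm hq
  have hm0 : (0 : ℝ) < m := by exact_mod_cast hm
  have hm1 : (1 : ℝ) ≤ m := by exact_mod_cast hm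
  have hpi := Real.pi_pos
  set d : ℝ := Real.pi / m with hd
  have hd0 : 0 < d := div_pos hpi hm0
  have hdm : d * m = Real.pi := div_mul_cancel₀ _ hm0.ne'
  have hdpi : d ≤ Real.pi := by
    rw [← hdm]
    exact le_mul_of_one_le_right hd0.le hm1
  have hang : ∀ k : ℕ, ang m k = 2 * d * k := by
    intro k
    unfold ang
    rw [hd]
    ring
  have hk1 : ∀ k : ℕ, 1 ≤ k → 2 * d ≤ 2 * d * k := by
    intro k hk
    have : (1 : ℝ) ≤ k := by exact_mod_cast hk
    exact le_mul_of_one_le_right (by linarith) this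
  have hk2 : ∀ k : ℕ, k < m → 2 * d * k ≤ 2 * Real.pi - 2 * d := by
    intro k hk
    have h3 : (k : ℝ) + 1 ≤ m := by exact_mod_cast hk
    have h4 := mul_le_mul_of_nonneg_left h3 (by linarith : 0 ≤ 2 * d)
    have h5 : 2 * d * m = 2 * Real.pi := by rw [mul_assoc, hdm]
    rw [h5] at h4
    linarith
  refine ⟨fun k hk => ?_, fun k hk => ?_⟩
  · rw [ext_mv m A w₀ k (Or.inl rfl) h1 h2, hang, one_mul]
    split_ifs with h0
    · subst h0
      have e : ((r * Real.cos (2 * d * (0 : ℕ) + θ), r * Real.sin (2 * d * (0 : ℕ) + θ)) : ℝ × ℝ) = q := by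
        rw [Nat.cast_zero, mul_zero, zero_add, ← h1, ← h2]
      rw [e]
      exact indicator_of_mem hq _
    · refine out hr fun h => ?_
      have g1 := hk1 k (by omega)
      have g2 := hk2 k hk
      have g3 := lt_pi_of_sin (by linarith) h.1
      have g4 := pos_of_sin (by linarith) h.2
      linarith
  · rw [ext_mv m A w₀ k (Or.inr rfl) h1 h2, hang]
    refine out hr fun h => ?_
    rcases Nat.eq_zero_or_pos k with h0 | h0
    · subst h0
      have g4 := pos_of_sin (x := 2 * d * (0 : ℕ) + -1 * θ) (by push_cast; linarith) h.1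
      push_cast at g4
      linarith
    · have g1 := hk1 k h0
      have g2 := hk2 k hk
      have g3 := lt_pi_of_sin (by linarith) h.1
      have g4 := pos_of_sin (by linarith) h.2
      linarith

end Pool.Agent.H74.WG.T.GEO
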