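import Pool.Agent.H74.WG.Stm

set_option autoImplicit false

namespace Pool.Agent.H74.WG.T.MIR

open Pool.Agent.H74.WG

theorem mv_pos (m : ℕ) (A r φ : ℝ) (k : ℕ) :
    mv m A k 1 (r * Real.cos φ, r * Real.sin φ) =
      (r * Real.cos (ang m k + φ) + 2 * A, r * Real.sin (ang m k + φ) + 2 * A) := by
  unfold mv
  rw [Real.cos_add, Real.sin_add]
  refine Prod.ext ?_ ?_
  · show Real.cos (ang m k) * (r * Real.cos φ) + -(1 * Real.sin (ang m k)) * (r * Real.sin φ) +
      2 * A = _
    ring
  · show Real.sin (ang m k) * (r * Real.cos φ) + 1 * Real.cos (ang m k) * (r * Real.sin φ) +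
      2 * A = _
    ring

theorem mv_neg (m : ℕ) (A r φ : ℝ) (k : ℕ) :
    mv m A k (-1) (r * Real.cos φ, r * Real.sin φ) =
      (r * Real.cos (ang m k - φ) + 2 * A, r * Real.sin (ang m k - φ) + 2 * A) := by
  unfold mv
  rw [Real.cos_sub, Real.sin_sub]
  refine Prod.ext ?_ ?_
  · show Real.cos (ang m k) * (r * Real.cos φ) + -(-1 * Real.sin (ang m k)) * (r * Real.sin φ) +
      2 * A = _
    ring
  · show Real.sin (ang m k) * (r * Real.cos φ) + -1 * Real.cos (ang m k) * (r * Real.sin φ) +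
      2 * A = _
    ring

theorem main : S_MIR := by
  intro m A w t r hm
  constructor
  · unfold asym
    refine Finset.sum_eq_zero fun k _ => ?_
    have h : mv m A k 1 (r, 0) = mv m A k (-1) (r, 0) := by
      unfold mv
      simp
    rw [h, sub_self]
  · obtain ⟨n, rfl⟩ := Nat.exists_eq_add_of_le' hm
    have hm0 : ((n + 1 : ℕ) : ℝ) ≠ 0 := by positivity
    unfold asym
    simp only [mv_pos, mv_neg]
    rw [Finset.sum_sub_distrib, Finset.sum_range_succ, Finset.sum_range_succ' (fun k =>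
      w t (r * Real.cos (ang (n + 1) k - Real.pi / ((n + 1 : ℕ) : ℝ)) + 2 * A)
        (r * Real.sin (ang (n + 1) k - Real.pi / ((n + 1 : ℕ) : ℝ)) + 2 * A))]
    have h1 : ∀ k : ℕ, ang (n + 1) (k + 1) - Real.pi / ((n + 1 : ℕ) : ℝ) =
        ang (n + 1) k + Real.pi / ((n + 1 : ℕ) : ℝ) := by
      intro k
      unfold ang
      push_cast
      field_simp
      ring
    have h2 : ang (n + 1) n + Real.pi / ((n + 1 : ℕ) : ℝ) =
        ang (n + 1) 0 - Real.pi / ((n + 1 : ℕ) : ℝ) + 2 * Real.pi := by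
      unfold ang
      push_cast
      field_simp
      ring
    simp only [h1]
    rw [h2, Real.cos_add_two_pi, Real.sin_add_two_pi, sub_self]

end Pool.Agent.H74.WG.T.MIR
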