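import Pool.Agent.H74.WG.Stm
import Pool.Agent.H74.OD.T.NSP

/-! WG-NSW (helper19): partial derivatives and regularity of the parallel flow (as OD-NSP of helper62) -/

set_option autoImplicit false

namespace Pool.Agent.H74.WG.T.NSW

open MeasureTheory Filter Topology Set
open Pool.Agent.H74.OD
open Pool.Agent.H74.OD.T.NSP (S hS S_contDiff fd cd0 cd1 P P_apply)
open Pool.Agent.H74.CD (pd)

lemma open3 {N : Set (ℝ × ℝ)} (hN : IsOpen N) : IsOpen {x : Fin 3 → ℝ | (x 0, x 1) ∈ N} :=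
  hN.preimage ((continuous_apply 0).prodMk (continuous_apply 1))

lemma pdf {f fx fy : ℝ → ℝ → ℝ} {N : Set (ℝ × ℝ)} (hN : IsOpen N)
    (h₁ : ∀ x y, (x, y) ∈ N → HasDerivAt (fun s => f s y) (fx x y) x)
    (h₂ : ∀ x y, (x, y) ∈ N → HasDerivAt (fun s => f x s) (fy x y) y)
    (c₁ : ContinuousOn (fun q : ℝ × ℝ => fx q.1 q.2) N)
    (c₂ : ContinuousOn (fun q : ℝ × ℝ => fy q.1 q.2) N) :
    ContDiffOn ℝ 1 (fun q : ℝ × ℝ => f q.1 q.2) N ∧
      ∀ x : Fin 3 → ℝ, (x 0, x 1) ∈ N → pd 0 (fun y => f (y 0) (y 1)) x = fx (x 0) (x 1) ∧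
        pd 1 (fun y => f (y 0) (y 1)) x = fy (x 0) (x 1) ∧ pd 2 (fun y => f (y 0) (y 1)) x = 0 := by
  have g₁ : ∀ v ∈ N, HasFDerivAt (fun x => f x v.2) (S (fx v.1 v.2)) v.1 :=
    fun v hv => hS (h₁ v.1 v.2 hv)
  have g₂ : ∀ v ∈ N, HasFDerivAt (fun y => f v.1 y) (S (fy v.1 v.2)) v.2 :=
    fun v hv => hS (h₂ v.1 v.2 hv)
  have k₁ : ContinuousOn (fun q : ℝ × ℝ => S (fx q.1 q.2)) N :=
    (S_contDiff (n := 0)).continuous.comp_continuousOn c₁
  have k₂ : ContinuousOn (fun q : ℝ × ℝ => S (fy q.1 q.2)) N :=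
    (S_contDiff (n := 0)).continuous.comp_continuousOn c₂
  refine ⟨?_, fun x hx => ?_⟩
  · exact cd0 hN g₁ g₂ k₁ k₂
  · have h := fd hN g₁ g₂ k₁ k₂ (P x) hx
    have h' : HasFDerivAt (fun y : Fin 3 → ℝ => f (y 0) (y 1)) _ x :=
      HasFDerivAt.comp (g := fun q : ℝ × ℝ => f q.1 q.2) x h P.hasFDerivAt
    unfold pd
    rw [h'.fderiv]
    refine ⟨?_, ?_, ?_⟩ <;> simp [S, P_apply]

theorem main : S_NSW := by
  intro N w wt wx wy wxx wyy wxy hN h
  have mk : ∀ g : ℝ → ℝ → ℝ → ℝ,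
      ContinuousOn (fun q : ℝ × ℝ × ℝ => g q.1 q.2.1 q.2.2) {q | 0 < q.1 ∧ q.2 ∈ N} →
      ∀ t, 0 < t → ContinuousOn (fun q : ℝ × ℝ => g t q.1 q.2) N := by
    intro g hg t ht
    exact hg.comp (f := fun q : ℝ × ℝ => (t, q)) (by fun_prop) (fun q hq => ⟨ht, hq⟩)
  have hw := fun t ht => pdf (f := w t) hN (fun x y hx => h.dx t x y ht hx)
    (fun x y hx => h.dy t x y ht hx) (mk _ h.cx t ht) (mk _ h.cy t ht)
  have hwx := fun t ht => pdf (f := wx t) hN (fun x y hx => h.dxx t x y ht hx)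
    (fun x y hx => h.dxy t x y ht hx) (mk _ h.cxx t ht) (mk _ h.cxy t ht)
  have hwy := fun t ht => pdf (f := wy t) hN (fun x y hx => h.dyx t x y ht hx)
    (fun x y hx => h.dyy t x y ht hx) (mk _ h.cxy t ht) (mk _ h.cyy t ht)
  refine ⟨?_, fun t ht => ?_, fun t ht x hx => ⟨?_, fun i k hk => ?_, ?_, ?_, ?_⟩⟩
  · -- first derivatives in space and time
    have hV : IsOpen {q : ℝ × ℝ × ℝ | 0 < q.1 ∧ q.2 ∈ N} :=
      (isOpen_lt continuous_const continuous_fst).inter (hN.preimage continuous_snd)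
    have h3 : ContDiffOn ℝ 1 (fun q : ℝ × ℝ × ℝ => w q.1 q.2.1 q.2.2)
        {q | 0 < q.1 ∧ q.2 ∈ N} := by
      exact cd0 (f := fun (t : ℝ) (q : ℝ × ℝ) => w t q.1 q.2)
        (f₁ := fun v : ℝ × ℝ × ℝ => S (wt v.1 v.2.1 v.2.2))
        (f₂ := fun v : ℝ × ℝ × ℝ => (S (wx v.1 v.2.1 v.2.2)).comp (ContinuousLinearMap.fst ℝ ℝ ℝ) +
          (S (wy v.1 v.2.1 v.2.2)).comp (ContinuousLinearMap.snd ℝ ℝ ℝ)) hV
        (fun v hv => hS (h.dt v.1 v.2.1 v.2.2 hv.1 hv.2))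
        (fun v hv => fd hN (fun u hu => hS (h.dx v.1 u.1 u.2 hv.1 hu))
          (fun u hu => hS (h.dy v.1 u.1 u.2 hv.1 hu))
          ((S_contDiff (n := 0)).continuous.comp_continuousOn (mk _ h.cx v.1 hv.1))
          ((S_contDiff (n := 0)).continuous.comp_continuousOn (mk _ h.cy v.1 hv.1)) v.2 hv.2)
        ((S_contDiff (n := 0)).continuous.comp_continuousOn h.ct)
        ((((S_contDiff (n := 0)).continuous.comp_continuousOn h.cx).clm_comp
          (continuousOn_const (c := ContinuousLinearMap.fst ℝ ℝ ℝ))).add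
          (((S_contDiff (n := 0)).continuous.comp_continuousOn h.cy).clm_comp
            (continuousOn_const (c := ContinuousLinearMap.snd ℝ ℝ ℝ))))
    refine contDiffOn_pi.2 fun k => ?_
    fin_cases k
    · exact contDiffOn_const
    · exact contDiffOn_const
    · have hQ : ContDiff ℝ 1 (fun q : ℝ × (Fin 3 → ℝ) => (q.1, P q.2)) :=
        contDiff_fst.prodMk (P.contDiff.comp contDiff_snd)
      exact h3.comp hQ.contDiffOn (fun q hq => ⟨hq.1, hq.2⟩)
  · have h3 : ContDiffOn ℝ 2 (fun q : ℝ × ℝ => w t q.1 q.2) N := by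
      exact cd1 (f := fun x y => w t x y) (f₁ := fun v : ℝ × ℝ => S (wx t v.1 v.2))
        (f₂ := fun v : ℝ × ℝ => S (wy t v.1 v.2)) hN
        (fun v hv => hS (h.dx t v.1 v.2 ht hv)) (fun v hv => hS (h.dy t v.1 v.2 ht hv))
        ((S_contDiff (n := 1)).comp_contDiffOn (hwx t ht).1)
        ((S_contDiff (n := 1)).comp_contDiffOn (hwy t ht).1)
    refine contDiffOn_pi.2 fun k => ?_
    fin_cases k
    · exact contDiffOn_const
    · exact contDiffOn_const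
    · exact h3.comp P.contDiff.contDiffOn (fun q hq => hq)
  · exact (hw t ht).2 x hx
  · fin_cases k
    · show fderiv ℝ (fun _ : Fin 3 → ℝ => (0 : ℝ)) x _ = 0
      simp
    · show fderiv ℝ (fun _ : Fin 3 → ℝ => (0 : ℝ)) x _ = 0
      simp
    · exact absurd rfl hk
  · have he : (fun y : Fin 3 → ℝ => pd 0 (fun z => par w t z 2) y) =ᶠ[𝓝 x]
        fun y => wx t (y 0) (y 1) := by
      filter_upwards [(open3 hN).mem_nhds hx] with y hy using ((hw t ht).2 y hy).1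
    have h1 := ((hwx t ht).2 x hx).1
    unfold pd at h1 ⊢
    unfold pd at he
    rw [he.fderiv_eq]
    exact h1
  · have he : (fun y : Fin 3 → ℝ => pd 1 (fun z => par w t z 2) y) =ᶠ[𝓝 x]
        fun y => wy t (y 0) (y 1) := by
      filter_upwards [(open3 hN).mem_nhds hx] with y hy using ((hw t ht).2 y hy).2.1
    have h1 := ((hwy t ht).2 x hx).2.1
    unfold pd at h1 ⊢
    unfold pd at he
    rw [he.fderiv_eq]
    exact h1
  · have he : (fun y : Fin 3 → ℝ => pd 2 (fun z => par w t z 2) y) =ᶠ[𝓝 x]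
        fun _ => (0 : ℝ) := by
      filter_upwards [(open3 hN).mem_nhds hx] with y hy using ((hw t ht).2 y hy).2.2
    unfold pd at he ⊢
    rw [he.fderiv_eq]
    simp

end Pool.Agent.H74.WG.T.NSW
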