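import Pool.Agent.H74.WG.Stm

/-!
# Project WG, stub ROT: orthogonal affine change of variables for solutions of the heat equation
-/

set_option autoImplicit false

namespace Pool.Agent.H74.WG.T.ROT

open MeasureTheory Filter Topology Set

/-- multiplication by `c` -/
noncomputable def S (c : ℝ) : ℝ →L[ℝ] ℝ := c • ContinuousLinearMap.id ℝ ℝ

lemma S_apply (c x : ℝ) : S c x = c * x := by simp [S]

lemma S_cont : Continuous S := continuous_id.smul continuous_const

lemma hS {g : ℝ → ℝ} {c x : ℝ} (h : HasDerivAt g c x) : HasFDerivAt g (S c) x :=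
  h.hasFDerivAt.congr_fderiv (by ext; simp [S])

/-- chain rule for a function of two variables with continuous partial derivatives -/
lemma chain {U : Set (ℝ × ℝ)} (hU : IsOpen U) {f fx fy : ℝ → ℝ → ℝ}
    (h₁ : ∀ x y, (x, y) ∈ U → HasDerivAt (fun s => f s y) (fx x y) x)
    (h₂ : ∀ x y, (x, y) ∈ U → HasDerivAt (fun s => f x s) (fy x y) y)
    (c₁ : ContinuousOn (fun q : ℝ × ℝ => fx q.1 q.2) U)
    (c₂ : ContinuousOn (fun q : ℝ × ℝ => fy q.1 q.2) U)
    {g k : ℝ → ℝ} {g' k' x : ℝ} (hg : HasDerivAt g g' x) (hk : HasDerivAt k k' x)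
    (hx : (g x, k x) ∈ U) :
    HasDerivAt (fun s => f (g s) (k s)) (g' * fx (g x) (k x) + k' * fy (g x) (k x)) x := by
  have hn : U ∈ 𝓝 (g x, k x) := hU.mem_nhds hx
  have h := hasStrictFDerivAt_uncurry_coprod (𝕜 := ℝ) (u := (g x, k x)) (f := f)
    (f₁ := fun a b => S (fx a b)) (f₂ := fun a b => S (fy a b))
    (by filter_upwards [hn] with q hq; exact hS (h₁ q.1 q.2 hq))
    (by filter_upwards [hn] with q hq; exact hS (h₂ q.1 q.2 hq))
    (((S_cont.comp_continuousOn c₁) _ hx).continuousAt hn)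
    (((S_cont.comp_continuousOn c₂) _ hx).continuousAt hn)
  have h' := h.hasFDerivAt
  have hgk : HasDerivAt (fun s => (g s, k s)) (g', k') x := hg.prodMk hk
  have h3 := HasFDerivAt.comp_hasDerivAt (f := fun s => (g s, k s)) x h' hgk
  refine HasDerivAt.congr_deriv (f := fun s => f (g s) (k s)) h3 ?_
  simp only [ContinuousLinearMap.coprod_apply, Function.HasUncurry.uncurry, id, S_apply]
  ring

theorem main : S_ROT := by
  intro N w wt wx wy wxx wyy wxy hN h a b c d e f hab hcd hac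
  -- continuity at a fixed time
  have mk : ∀ g : ℝ → ℝ → ℝ → ℝ,
      ContinuousOn (fun q : ℝ × ℝ × ℝ => g q.1 q.2.1 q.2.2) {q | 0 < q.1 ∧ q.2 ∈ N} →
      ∀ t, 0 < t → ContinuousOn (fun q : ℝ × ℝ => g t q.1 q.2) N := by
    intro g hg t ht
    have hc : Continuous (fun q : ℝ × ℝ => ((t, q) : ℝ × ℝ × ℝ)) := by fun_prop
    exact hg.comp hc.continuousOn fun q hq => ⟨ht, hq⟩
  -- continuity of the compositions
  have cp : ∀ g : ℝ → ℝ → ℝ → ℝ,
      ContinuousOn (fun q : ℝ × ℝ × ℝ => g q.1 q.2.1 q.2.2) {q | 0 < q.1 ∧ q.2 ∈ N} →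
      ContinuousOn (fun q : ℝ × ℝ × ℝ =>
        g q.1 (a * q.2.1 + b * q.2.2 + e) (c * q.2.1 + d * q.2.2 + f))
        {q | 0 < q.1 ∧ q.2 ∈ {q : ℝ × ℝ | (a * q.1 + b * q.2 + e, c * q.1 + d * q.2 + f) ∈ N}} := by
    intro g hg
    have hc : Continuous (fun q : ℝ × ℝ × ℝ =>
      ((q.1, a * q.2.1 + b * q.2.2 + e, c * q.2.1 + d * q.2.2 + f) : ℝ × ℝ × ℝ)) := by fun_prop
    exact hg.comp hc.continuousOn fun q hq => ⟨hq.1, hq.2⟩
  have lx : ∀ (a b e x y : ℝ), HasDerivAt (fun s => a * s + b * y + e) a x := by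
    intro a b e x y
    have h1 := ((hasDerivAt_id x).const_mul a).add_const (b * y)
    have h2 := h1.add_const e
    simpa using h2
  have ly : ∀ (a b e x y : ℝ), HasDerivAt (fun s => a * x + b * s + e) b y := by
    intro a b e x y
    have h1 := ((hasDerivAt_id y).const_mul b).const_add (a * x)
    have h2 := h1.add_const e
    simpa using h2
  have W := fun (t : ℝ) (ht : 0 < t) =>
    @chain N hN (w t) (wx t) (wy t) (fun x y hxy => h.dx t x y ht hxy) (fun x y hxy => h.dy t x y ht hxy)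
      (mk wx h.cx t ht) (mk wy h.cy t ht)
  have WX := fun (t : ℝ) (ht : 0 < t) =>
    @chain N hN (wx t) (wxx t) (wxy t) (fun x y hxy => h.dxx t x y ht hxy)
      (fun x y hxy => h.dxy t x y ht hxy) (mk wxx h.cxx t ht) (mk wxy h.cxy t ht)
  have WY := fun (t : ℝ) (ht : 0 < t) =>
    @chain N hN (wy t) (wxy t) (wyy t) (fun x y hxy => h.dyx t x y ht hxy)
      (fun x y hxy => h.dyy t x y ht hxy) (mk wxy h.cxy t ht) (mk wyy h.cyy t ht)
  refine ⟨?_, ?_, ?_, ?_, ?_, ?_, ?_, ?_, ?_, ?_, ?_, ?_, ?_, ?_⟩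
  · intro t x y ht hxy
    exact h.dt t _ _ ht hxy
  · intro t x y ht hxy
    exact W t ht (lx a b e x y) (lx c d f x y) hxy
  · intro t x y ht hxy
    exact W t ht (ly a b e x y) (ly c d f x y) hxy
  · intro t x y ht hxy
    have h1 := (WX t ht (lx a b e x y) (lx c d f x y) hxy).const_mul a
    have h2 := (WY t ht (lx a b e x y) (lx c d f x y) hxy).const_mul c
    refine (h1.add h2).congr_deriv ?_
    ring
  · intro t x y ht hxy
    have h1 := (WX t ht (ly a b e x y) (ly c d f x y) hxy).const_mul b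
    have h2 := (WY t ht (ly a b e x y) (ly c d f x y) hxy).const_mul d
    refine (h1.add h2).congr_deriv ?_
    ring
  · intro t x y ht hxy
    have h1 := (WX t ht (ly a b e x y) (ly c d f x y) hxy).const_mul a
    have h2 := (WY t ht (ly a b e x y) (ly c d f x y) hxy).const_mul c
    refine (h1.add h2).congr_deriv ?_
    ring
  · intro t x y ht hxy
    have h1 := (WX t ht (lx a b e x y) (lx c d f x y) hxy).const_mul b
    have h2 := (WY t ht (lx a b e x y) (lx c d f x y) hxy).const_mul d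
    refine (h1.add h2).congr_deriv ?_
    ring
  · intro t x y ht hxy
    have h1 := h.eq t _ _ ht hxy
    simp only at h1 ⊢
    rw [h1]
    linear_combination (-(wxx t (a * x + b * y + e) (c * x + d * y + f))) * hab -
      (wyy t (a * x + b * y + e) (c * x + d * y + f)) * hcd -
      2 * (wxy t (a * x + b * y + e) (c * x + d * y + f)) * hac
  · exact cp wt h.ct
  · exact ((cp wx h.cx).const_smul a).add ((cp wy h.cy).const_smul c)
  · exact ((cp wx h.cx).const_smul b).add ((cp wy h.cy).const_smul d)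
  · exact (((cp wxx h.cxx).const_smul (a ^ 2)).add ((cp wxy h.cxy).const_smul (2 * a * c))).add
      ((cp wyy h.cyy).const_smul (c ^ 2))
  · exact (((cp wxx h.cxx).const_smul (b ^ 2)).add ((cp wxy h.cxy).const_smul (2 * b * d))).add
      ((cp wyy h.cyy).const_smul (d ^ 2))
  · exact (((cp wxx h.cxx).const_smul (a * b)).add ((cp wxy h.cxy).const_smul (a * d + b * c))).add
      ((cp wyy h.cyy).const_smul (c * d))

end Pool.Agent.H74.WG.T.ROT
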