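import Pool.Agent.H74.WG.Stm

/-! # WG-WEN: finite dissipation in the sector -/

set_option autoImplicit false

namespace Pool.Agent.H74.WG.T.WEN

open MeasureTheory Filter Topology Set Pool.Agent.H74.OD
open scoped ENNReal

private theorem mv_mem {m : ℕ} {A : ℝ} (hA : 0 < A) (k : ℕ) {σ : ℝ} (hσ : σ = 1 ∨ σ = -1)
    {q : ℝ × ℝ} (hq : q ∈ Sector m A) :
    (mv m A k σ q).1 ∈ Ioo A (3 * A) ∧ (mv m A k σ q).2 ∈ Ioo A (3 * A) := by
  have hσ2 : σ ^ 2 = 1 := by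
    rcases hσ with h | h <;> rw [h] <;> norm_num
  have hcs := Real.sin_sq_add_cos_sq (ang m k)
  have h1 : q.1 ^ 2 + q.2 ^ 2 < A ^ 2 := hq.1
  obtain ⟨u, hu⟩ : ∃ u, u = Real.cos (ang m k) * q.1 + -(σ * Real.sin (ang m k)) * q.2 := ⟨_, rfl⟩
  obtain ⟨v, hv⟩ : ∃ v, v = Real.sin (ang m k) * q.1 + σ * Real.cos (ang m k) * q.2 := ⟨_, rfl⟩
  have huv : u ^ 2 + v ^ 2 = q.1 ^ 2 + q.2 ^ 2 := by
    rw [hu, hv]
    linear_combination (q.1 ^ 2 + σ ^ 2 * q.2 ^ 2) * hcs + q.2 ^ 2 * hσ2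
  have hu1 : |u| < A := abs_lt_of_sq_lt_sq (by nlinarith [sq_nonneg v]) hA.le
  have hv1 : |v| < A := abs_lt_of_sq_lt_sq (by nlinarith [sq_nonneg u]) hA.le
  rw [abs_lt] at hu1 hv1
  have e1 : (mv m A k σ q).1 = u + 2 * A := by rw [hu]; rfl
  have e2 : (mv m A k σ q).2 = v + 2 * A := by rw [hv]; rfl
  rw [e1, e2]
  exact ⟨⟨by linarith, by linarith⟩, ⟨by linarith, by linarith⟩⟩

private theorem mv_cont (m : ℕ) (A : ℝ) (k : ℕ) (σ : ℝ) : Continuous (mv m A k σ) := by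
  unfold mv
  fun_prop

private theorem mv_abs {m : ℕ} {A : ℝ} (hA : 0 < A) (k : ℕ) {σ : ℝ} (hσ : σ = 1 ∨ σ = -1)
    {q : ℝ × ℝ} (hq : q ∈ Sector m A) : |(mv m A k σ q).1| < 4 * A := by
  obtain ⟨h1, -⟩ := mv_mem hA k hσ hq
  rw [abs_lt]
  exact ⟨by linarith [h1.1], by linarith [h1.2]⟩

private theorem sec_open (m : ℕ) (A : ℝ) : IsOpen (Sector m A) := by
  have h1 : IsOpen {q : ℝ × ℝ | q.1 ^ 2 + q.2 ^ 2 < A ^ 2} :=
    isOpen_lt (by fun_prop) continuous_const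
  have h2 : IsOpen {q : ℝ × ℝ | 0 < q.2} := isOpen_lt continuous_const continuous_snd
  have h3 : IsOpen {q : ℝ × ℝ | 0 < Real.sin (Real.pi / m) * q.1 - Real.cos (Real.pi / m) * q.2} :=
    isOpen_lt continuous_const (by fun_prop)
  exact h1.inter (h2.inter h3)

/-- the sum of the squares of the derivatives -/
private noncomputable def gg (wx wy : ℝ → ℝ → ℝ → ℝ) (t : ℝ) (q : ℝ × ℝ) : ℝ :=
  wx t q.1 q.2 ^ 2 + wy t q.1 q.2 ^ 2

private theorem gg_nonneg (wx wy : ℝ → ℝ → ℝ → ℝ) (t : ℝ) (q : ℝ × ℝ) : 0 ≤ gg wx wy t q := by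
  unfold gg
  positivity

private theorem enorm_sq (x : ℝ) : ‖x‖ₑ ^ 2 = ENNReal.ofReal (x ^ 2) := by
  rw [Real.enorm_eq_ofReal_abs, ← ENNReal.ofReal_pow (abs_nonneg x), sq_abs]

private theorem enorm_add (x y : ℝ) : ‖x‖ₑ ^ 2 + ‖y‖ₑ ^ 2 = ENNReal.ofReal (x ^ 2 + y ^ 2) := by
  rw [enorm_sq, enorm_sq, ENNReal.ofReal_add (sq_nonneg x) (sq_nonneg y)]

private theorem cs {c s x y : ℝ} (h : s ^ 2 + c ^ 2 = 1) : (c * x + s * y) ^ 2 ≤ x ^ 2 + y ^ 2 := by
  have h1 : (c * x + s * y) ^ 2 + (s * x - c * y) ^ 2 = x ^ 2 + y ^ 2 := by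
    linear_combination (x ^ 2 + y ^ 2) * h
  nlinarith [sq_nonneg (s * x - c * y)]

private theorem df {a b P Q : ℝ} (ha : a ^ 2 ≤ P) (hb : b ^ 2 ≤ Q) : (a - b) ^ 2 ≤ 2 * (P + Q) := by
  nlinarith [sq_nonneg (a + b)]

private theorem sumsq (m : ℕ) (a g : ℕ → ℝ) (h : ∀ k, a k ^ 2 ≤ 2 * g k) :
    (∑ k ∈ Finset.range m, a k) ^ 2 ≤ 2 * m * ∑ k ∈ Finset.range m, g k := by
  have h1 : (∑ k ∈ Finset.range m, a k) ^ 2 ≤
      ((Finset.range m).card : ℝ) * ∑ k ∈ Finset.range m, a k ^ 2 := sq_sum_le_card_mul_sum_sq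
  rw [Finset.card_range] at h1
  have h2 : ∑ k ∈ Finset.range m, a k ^ 2 ≤ ∑ k ∈ Finset.range m, 2 * g k :=
    Finset.sum_le_sum fun k _ => h k
  rw [← Finset.mul_sum] at h2
  have h3 := mul_le_mul_of_nonneg_left h2 (Nat.cast_nonneg (α := ℝ) m)
  linarith

/-- the pointwise estimate -/
private theorem pt (m : ℕ) (A : ℝ) (wx wy : ℝ → ℝ → ℝ → ℝ) (t : ℝ) (q : ℝ × ℝ) :
    asymx m A wx wy t q.1 q.2 ^ 2 + asymy m A wx wy t q.1 q.2 ^ 2 ≤
      4 * m * ∑ k ∈ Finset.range m,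
        (gg wx wy t (mv m A k 1 q) + gg wx wy t (mv m A k (-1) q)) := by
  have hx : asymx m A wx wy t q.1 q.2 ^ 2 ≤ 2 * m * ∑ k ∈ Finset.range m,
      (gg wx wy t (mv m A k 1 q) + gg wx wy t (mv m A k (-1) q)) := by
    unfold asymx
    refine sumsq m _ _ fun k => ?_
    have hcs := Real.sin_sq_add_cos_sq (ang m k)
    exact df (cs hcs) (cs hcs)
  have hy : asymy m A wx wy t q.1 q.2 ^ 2 ≤ 2 * m * ∑ k ∈ Finset.range m,
      (gg wx wy t (mv m A k 1 q) + gg wx wy t (mv m A k (-1) q)) := by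
    unfold asymy
    refine sumsq m _ _ fun k => ?_
    have hcs := Real.sin_sq_add_cos_sq (ang m k)
    refine df (P := gg wx wy t (mv m A k 1 q)) (Q := gg wx wy t (mv m A k (-1) q)) ?_ ?_
    · exact cs (c := -Real.sin (ang m k)) (s := Real.cos (ang m k)) (by nlinarith)
    · have := cs (c := Real.sin (ang m k)) (s := -Real.cos (ang m k))
        (x := wx t (mv m A k (-1) (q.1, q.2)).1 (mv m A k (-1) (q.1, q.2)).2)
        (y := wy t (mv m A k (-1) (q.1, q.2)).1 (mv m A k (-1) (q.1, q.2)).2) (by nlinarith)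
      unfold gg
      refine le_trans (le_of_eq ?_) this
      ring
  linarith

/-- WG-WEN -/
theorem main (hd : OD.S_DIS) (hc : S_CHV) (he : S_EXT) : S_WEN := by
  intro m A T w₀ w wt wx wy wxx wyy wxy hm hA hT hw h
  have hA4 : (0 : ℝ) < 4 * A := by linarith
  have hdis := hd (4 * A) (4 * A) (ext m A w₀) hA4 hA4 (he m A w₀ hm hA hw)
  have hmS : MeasurableSet (Sector m A) := (sec_open m A).measurableSet
  have hmR : MeasurableSet (Rec (4 * A) (4 * A)) := measurableSet_Ioo.prod measurableSet_Ioo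
  obtain ⟨F, hF⟩ : ∃ F : ℝ → ℝ≥0∞, F = fun t => ∫⁻ q in Sector m A,
    (‖asymx m A wx wy t q.1 q.2‖ₑ ^ 2 + ‖asymy m A wx wy t q.1 q.2‖ₑ ^ 2) := ⟨_, rfl⟩
  obtain ⟨K, hK⟩ : ∃ K : ℝ≥0∞, K = ENNReal.ofReal (4 * m) * (m * 2) := ⟨_, rfl⟩
  have hKtop : K ≠ ⊤ := by
    rw [hK]
    exact ENNReal.mul_ne_top ENNReal.ofReal_ne_top
      (ENNReal.mul_ne_top (ENNReal.natCast_ne_top m) (by norm_num))
  -- the bound for a fixed time
  have hcont : ∀ t, 0 < t → ∀ k σ, (σ = 1 ∨ σ = -1) →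
      AEMeasurable (fun q => ENNReal.ofReal (gg wx wy t (mv m A k σ q)))
        (volume.restrict (Sector m A)) := by
    intro t ht k σ hσ
    have hmap : ContinuousOn (fun q : ℝ × ℝ => ((t, (mv m A k σ q)) : ℝ × ℝ × ℝ))
        (Sector m A) := by
      have := mv_cont m A k σ
      fun_prop
    have hto : MapsTo (fun q : ℝ × ℝ => ((t, (mv m A k σ q)) : ℝ × ℝ × ℝ)) (Sector m A)
        {q | 0 < q.1 ∧ |q.2.1| < 4 * A} := fun q hq => ⟨ht, mv_abs hA k hσ hq⟩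
    have h1 := h.cx.comp hmap hto
    have h2 := h.cy.comp hmap hto
    have h3 : ContinuousOn (fun q => gg wx wy t (mv m A k σ q)) (Sector m A) :=
      (h1.pow 2).add (h2.pow 2)
    exact (h3.aemeasurable hmS).ennreal_ofReal
  have hFle : ∀ t, 0 < t → F t ≤ K * ∫⁻ q in Rec (4 * A) (4 * A),
      ENNReal.ofReal (gg wx wy t q) := by
    intro t ht
    rw [hF]
    have h1 : ∀ q, (‖asymx m A wx wy t q.1 q.2‖ₑ ^ 2 + ‖asymy m A wx wy t q.1 q.2‖ₑ ^ 2) ≤
        ENNReal.ofReal (4 * m) * ∑ k ∈ Finset.range m,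
          (ENNReal.ofReal (gg wx wy t (mv m A k 1 q)) +
            ENNReal.ofReal (gg wx wy t (mv m A k (-1) q))) := by
      intro q
      rw [enorm_add]
      refine (ENNReal.ofReal_le_ofReal (pt m A wx wy t q)).trans (le_of_eq ?_)
      rw [ENNReal.ofReal_mul (by positivity), ENNReal.ofReal_sum_of_nonneg fun k _ =>
        add_nonneg (gg_nonneg _ _ _ _) (gg_nonneg _ _ _ _)]
      congr 1
      exact Finset.sum_congr rfl fun k _ => ENNReal.ofReal_add (gg_nonneg _ _ _ _)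
        (gg_nonneg _ _ _ _)
    refine (lintegral_mono fun q => h1 q).trans ?_
    have hsum : ∫⁻ q in Sector m A, ∑ k ∈ Finset.range m,
          (ENNReal.ofReal (gg wx wy t (mv m A k 1 q)) +
            ENNReal.ofReal (gg wx wy t (mv m A k (-1) q))) =
        ∑ k ∈ Finset.range m, ∫⁻ q in Sector m A,
          (ENNReal.ofReal (gg wx wy t (mv m A k 1 q)) +
            ENNReal.ofReal (gg wx wy t (mv m A k (-1) q))) :=
      lintegral_finsetSum' _ fun k _ => (hcont t ht k 1 (Or.inl rfl)).add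
        (hcont t ht k (-1) (Or.inr rfl))
    rw [lintegral_const_mul' _ _ ENNReal.ofReal_ne_top, hsum]
    have h2 : ∀ k, ∫⁻ q in Sector m A, (ENNReal.ofReal (gg wx wy t (mv m A k 1 q)) +
        ENNReal.ofReal (gg wx wy t (mv m A k (-1) q))) ≤
        2 * ∫⁻ q in Rec (4 * A) (4 * A), ENNReal.ofReal (gg wx wy t q) := by
      intro k
      rw [lintegral_add_left' (hcont t ht k 1 (Or.inl rfl)), two_mul]
      exact add_le_add
        (hc m A k 1 (fun q => ENNReal.ofReal (gg wx wy t q)) hA (Or.inl rfl))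
        (hc m A k (-1) (fun q => ENNReal.ofReal (gg wx wy t q)) hA (Or.inr rfl))
    calc ENNReal.ofReal (4 * m) * ∑ k ∈ Finset.range m, ∫⁻ q in Sector m A,
          (ENNReal.ofReal (gg wx wy t (mv m A k 1 q)) +
            ENNReal.ofReal (gg wx wy t (mv m A k (-1) q)))
        ≤ ENNReal.ofReal (4 * m) * ∑ _k ∈ Finset.range m,
          2 * ∫⁻ q in Rec (4 * A) (4 * A), ENNReal.ofReal (gg wx wy t q) := by
          gcongr with k hk
          exact h2 k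
      _ = K * ∫⁻ q in Rec (4 * A) (4 * A), ENNReal.ofReal (gg wx wy t q) := by
          rw [Finset.sum_const, Finset.card_range, nsmul_eq_mul, hK]
          ring
  -- early times
  obtain ⟨J, hJ⟩ : ∃ J : ℝ → ℝ≥0∞, J = fun t => ∫⁻ q in Rec (4 * A) (4 * A),
    (‖∑' p : ℕ × ℕ, bc (4 * A) (4 * A) (ext m A w₀) p.1 p.2 *
        Real.exp (-((kap (4 * A) p.1 ^ 2 + kap (4 * A) p.2 ^ 2) * t)) *
      (kap (4 * A) p.1 * Real.cos (kap (4 * A) p.1 * q.1) *
        Real.sin (kap (4 * A) p.2 * q.2))‖ₑ ^ 2 +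
    ‖∑' p : ℕ × ℕ, bc (4 * A) (4 * A) (ext m A w₀) p.1 p.2 *
        Real.exp (-((kap (4 * A) p.1 ^ 2 + kap (4 * A) p.2 ^ 2) * t)) *
      (Real.sin (kap (4 * A) p.1 * q.1) * (kap (4 * A) p.2 *
        Real.cos (kap (4 * A) p.2 * q.2)))‖ₑ ^ 2) := ⟨_, rfl⟩
  have hJ1 : ∀ t, 0 < t → t ≤ T / 2 → ∫⁻ q in Rec (4 * A) (4 * A),
      ENNReal.ofReal (gg wx wy t q) = J t := by
    intro t ht ht2
    rw [hJ]
    refine setLIntegral_congr_fun hmR fun q hq => ?_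
    have hq1 : |q.1| < 4 * A := by
      rw [abs_lt]
      exact ⟨by linarith [hq.1.1], hq.1.2⟩
    show ENNReal.ofReal (wx t q.1 q.2 ^ 2 + wy t q.1 q.2 ^ 2) = _
    rw [← enorm_add, h.earlyx t q.1 q.2 ht ht2 hq1, h.earlyy t q.1 q.2 ht ht2 hq1]
  have hpart1 : ∫⁻ t in Ioc (0 : ℝ) (T / 2), F t < ⊤ := by
    have h1 : ∫⁻ t in Ioc (0 : ℝ) (T / 2), F t ≤ ∫⁻ t in Ioc (0 : ℝ) (T / 2), K * J t :=
      setLIntegral_mono' measurableSet_Ioc fun t ht => by
        rw [← hJ1 t ht.1 ht.2]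
        exact hFle t ht.1
    refine h1.trans_lt ?_
    rw [lintegral_const_mul' _ _ hKtop]
    refine ENNReal.mul_lt_top hKtop.lt_top (lt_of_le_of_lt ?_ hdis)
    rw [hJ]
    exact lintegral_mono_set Ioc_subset_Ioi_self
  -- the middle
  have hpart2 : ∫⁻ t in Ioc (T / 2) T, F t < ⊤ := by
    obtain ⟨Kc, hKc⟩ : ∃ Kc : Set (ℝ × ℝ × ℝ), Kc = Icc (T / 2) T ×ˢ (Icc A (3 * A) ×ˢ
      Icc A (3 * A)) := ⟨_, rfl⟩
    have hcomp : IsCompact Kc := by
      rw [hKc]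
      exact isCompact_Icc.prod (isCompact_Icc.prod isCompact_Icc)
    have hsub : Kc ⊆ {q : ℝ × ℝ × ℝ | 0 < q.1 ∧ |q.2.1| < 4 * A} := by
      rw [hKc]
      rintro ⟨t, x, y⟩ ⟨h1, h2, -⟩
      refine ⟨?_, ?_⟩
      · have : T / 2 ≤ t := h1.1
        show 0 < t
        linarith
      · have h3 : A ≤ x := h2.1
        have h4 : x ≤ 3 * A := h2.2
        show |x| < 4 * A
        rw [abs_lt]
        exact ⟨by linarith, by linarith⟩
    obtain ⟨M1, hM1⟩ := hcomp.exists_bound_of_continuousOn (h.cx.mono hsub)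
    obtain ⟨M2, hM2⟩ := hcomp.exists_bound_of_continuousOn (h.cy.mono hsub)
    have hgb : ∀ t ∈ Ioc (T / 2) T, ∀ k σ, (σ = 1 ∨ σ = -1) → ∀ q ∈ Sector m A,
        gg wx wy t (mv m A k σ q) ≤ M1 ^ 2 + M2 ^ 2 := by
      intro t ht k σ hσ q hq
      obtain ⟨h1, h2⟩ := mv_mem hA k hσ hq
      have hmem : ((t, mv m A k σ q) : ℝ × ℝ × ℝ) ∈ Kc := by
        rw [hKc]
        exact ⟨⟨ht.1.le, ht.2⟩, ⟨h1.1.le, h1.2.le⟩, ⟨h2.1.le, h2.2.le⟩⟩
      have h3 : |wx t (mv m A k σ q).1 (mv m A k σ q).2| ≤ M1 := hM1 _ hmem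
      have h4 : |wy t (mv m A k σ q).1 (mv m A k σ q).2| ≤ M2 := hM2 _ hmem
      unfold gg
      exact add_le_add (sq_le_sq' (abs_le.1 h3).1 (abs_le.1 h3).2)
        (sq_le_sq' (abs_le.1 h4).1 (abs_le.1 h4).2)
    obtain ⟨c, hcc⟩ : ∃ c : ℝ, c = 4 * m * ∑ _k ∈ Finset.range m,
      ((M1 ^ 2 + M2 ^ 2) + (M1 ^ 2 + M2 ^ 2)) := ⟨_, rfl⟩
    have hFc : ∀ t ∈ Ioc (T / 2) T, F t ≤
        ENNReal.ofReal c * volume (Rec (4 * A) (4 * A)) := by
      intro t ht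
      rw [hF]
      have h1 : ∫⁻ q in Sector m A,
          (‖asymx m A wx wy t q.1 q.2‖ₑ ^ 2 + ‖asymy m A wx wy t q.1 q.2‖ₑ ^ 2) ≤
          ∫⁻ q in Sector m A, ENNReal.ofReal c := by
        refine setLIntegral_mono' hmS fun q hq => ?_
        rw [enorm_add]
        refine ENNReal.ofReal_le_ofReal ((pt m A wx wy t q).trans ?_)
        rw [hcc]
        refine mul_le_mul_of_nonneg_left (Finset.sum_le_sum fun k _ => ?_) (by positivity)
        exact add_le_add (hgb t ht k 1 (Or.inl rfl) q hq) (hgb t ht k (-1) (Or.inr rfl) q hq)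
      have h2 := hc m A 0 1 (fun _ => ENNReal.ofReal c) hA (Or.inl rfl)
      refine h1.trans (h2.trans (le_of_eq ?_))
      rw [setLIntegral_const]
    have hvol : volume (Rec (4 * A) (4 * A)) < ⊤ :=
      ((Metric.isBounded_Ioo _ _).prod (Metric.isBounded_Ioo _ _)).measure_lt_top
    have h1 : ∫⁻ t in Ioc (T / 2) T, F t ≤ ∫⁻ t in Ioc (T / 2) T,
        ENNReal.ofReal c * volume (Rec (4 * A) (4 * A)) :=
      setLIntegral_mono' measurableSet_Ioc hFc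
    refine h1.trans_lt ?_
    rw [setLIntegral_const]
    refine ENNReal.mul_lt_top (ENNReal.mul_lt_top ENNReal.ofReal_lt_top hvol) ?_
    rw [Real.volume_Ioc]
    exact ENNReal.ofReal_lt_top
  -- late times
  have hpart3 : ∫⁻ t in Ioi T, F t = 0 := by
    have h1 : ∫⁻ t in Ioi T, F t ≤ ∫⁻ t in Ioi T, 0 := by
      refine setLIntegral_mono' measurableSet_Ioi fun t ht => ?_
      have htT : T ≤ t := le_of_lt ht
      have ht0 : 0 < t := hT.trans_le htT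
      refine (hFle t ht0).trans (le_of_eq ?_)
      have h2 : ∫⁻ q in Rec (4 * A) (4 * A), ENNReal.ofReal (gg wx wy t q) =
          ∫⁻ q in Rec (4 * A) (4 * A), 0 := by
        refine setLIntegral_congr_fun hmR fun q hq => ?_
        have hq1 : |q.1| < 4 * A := by
          rw [abs_lt]
          exact ⟨by linarith [hq.1.1], hq.1.2⟩
        have hx0 : wx t q.1 q.2 = 0 := by
          have h3 := h.dx t q.1 q.2 ht0 hq1
          have hev : (fun s => w t s q.2) =ᶠ[𝓝 q.1] fun _ => (0 : ℝ) := by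
            have h4 : {s : ℝ | |s| < 4 * A} ∈ 𝓝 q.1 :=
              (isOpen_lt continuous_abs continuous_const).mem_nhds hq1
            filter_upwards [h4] with s hs
            exact h.late t s q.2 htT hs
          exact h3.unique ((hasDerivAt_const q.1 (0 : ℝ)).congr_of_eventuallyEq hev)
        have hy0 : wy t q.1 q.2 = 0 := by
          have h3 := h.dy t q.1 q.2 ht0 hq1
          have hev : (fun s => w t q.1 s) =ᶠ[𝓝 q.2] fun _ => (0 : ℝ) :=
            Eventually.of_forall fun s => h.late t q.1 s htT hq1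
          exact h3.unique ((hasDerivAt_const q.2 (0 : ℝ)).congr_of_eventuallyEq hev)
        show ENNReal.ofReal (wx t q.1 q.2 ^ 2 + wy t q.1 q.2 ^ 2) = 0
        rw [hx0, hy0]
        simp
      rw [h2, lintegral_zero, mul_zero]
    rw [lintegral_zero] at h1
    exact le_antisymm h1 bot_le
  have hcover : Ioi (0 : ℝ) ⊆ Ioc (0 : ℝ) (T / 2) ∪ (Ioc (T / 2) T ∪ Ioi T) := by
    intro t ht
    rcases le_or_gt t (T / 2) with h1 | h1
    · exact Or.inl ⟨ht, h1⟩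
    · rcases le_or_gt t T with h2 | h2
      · exact Or.inr (Or.inl ⟨h1, h2⟩)
      · exact Or.inr (Or.inr h2)
  have hgoal : ∫⁻ t in Ioi (0 : ℝ), F t < ⊤ := by
    refine (lintegral_mono_set hcover).trans_lt ?_
    refine (lintegral_union_le _ _ _).trans_lt ?_
    refine ENNReal.add_lt_top.2 ⟨hpart1, ?_⟩
    refine (lintegral_union_le _ _ _).trans_lt ?_
    refine ENNReal.add_lt_top.2 ⟨hpart2, ?_⟩
    rw [hpart3]
    exact ENNReal.zero_lt_top
  rw [hF] at hgoal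
  exact hgoal

end Pool.Agent.H74.WG.T.WEN
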