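import Pool.Agent.H74.WG.Stm

/-!
# Project WG, WFIN: final assembly (helper62; after OD-FIN of helper75)
-/

set_option autoImplicit false

namespace Pool.Agent.H74.WG.T.WFIN

open MeasureTheory Filter Topology Set
open scoped ENNReal
open Pool.Agent.H74.OD Pool.Agent.H74.WG
open Pool.Agent.H74.CD (pd)

theorem sector_open (m : ℕ) (A : ℝ) : IsOpen (Sector m A) := by
  unfold Sector
  have h1 : Continuous (fun q : ℝ × ℝ => q.1 ^ 2 + q.2 ^ 2) := by fun_prop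
  have h2 : Continuous (fun q : ℝ × ℝ =>
      Real.sin (Real.pi / m) * q.1 - Real.cos (Real.pi / m) * q.2) := by fun_prop
  exact (isOpen_lt h1 continuous_const).inter
    ((isOpen_lt continuous_const continuous_snd).inter (isOpen_lt continuous_const h2))

theorem sduct_open (m : ℕ) (A c : ℝ) : IsOpen (SDuct m A c) := by
  have h1 : Continuous (fun x : Fin 3 → ℝ => ((x 0, x 1) : ℝ × ℝ)) := by fun_prop
  exact ((sector_open m A).preimage h1).inter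
    (isOpen_lt (continuous_abs.comp (continuous_apply 2)) continuous_const)

theorem disc_open (R : ℝ) : IsOpen {q : ℝ × ℝ | q.1 ^ 2 + q.2 ^ 2 < R ^ 2} :=
  isOpen_lt (by fun_prop) continuous_const

theorem par_of_ne (w : ℝ → ℝ → ℝ → ℝ) (t : ℝ) (x : Fin 3 → ℝ) (k : Fin 3) (hk : k ≠ 2) :
    par w t x k = 0 := by
  fin_cases k
  · rfl
  · rfl
  · exact absurd rfl hk

theorem par_zero (w : ℝ → ℝ → ℝ → ℝ) (t : ℝ) (x : Fin 3 → ℝ) (h : w t (x 0) (x 1) = 0) :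
    par w t x = 0 := by
  funext k
  by_cases hk : k = 2
  · subst hk
    exact h
  · exact par_of_ne w t x k hk

theorem pd_zero (i : Fin 3) (x : Fin 3 → ℝ) : pd i (fun _ => (0 : ℝ)) x = 0 := by
  simp [pd]

theorem cont_w {N : Set (ℝ × ℝ)} {w : ℝ → ℝ → ℝ → ℝ} {t : ℝ}
    (h : ContDiffOn ℝ 2 (par w t) {x : Fin 3 → ℝ | (x 0, x 1) ∈ N}) :
    ContinuousOn (fun q : ℝ × ℝ => w t q.1 q.2) N := by
  have h1 : ContinuousOn (fun x => par w t x 2) {x : Fin 3 → ℝ | (x 0, x 1) ∈ N} :=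
    (continuous_apply 2).comp_continuousOn h.continuousOn
  have h2 : Continuous (fun q : ℝ × ℝ => (![q.1, q.2, 0] : Fin 3 → ℝ)) := by
    refine continuous_pi fun i => ?_
    fin_cases i
    · exact continuous_fst
    · exact continuous_snd
    · exact continuous_const
  exact h1.comp h2.continuousOn (fun q hq => hq)

theorem sec {N : Set (ℝ × ℝ)} {t : ℝ} {f : ℝ → ℝ → ℝ → ℝ} (ht : 0 < t)
    (h : ContinuousOn (fun q : ℝ × ℝ × ℝ => f q.1 q.2.1 q.2.2) {q | 0 < q.1 ∧ q.2 ∈ N}) :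
    ContinuousOn (fun q : ℝ × ℝ => f t q.1 q.2) N :=
  h.comp (f := fun q : ℝ × ℝ => (t, q)) (Continuous.continuousOn (by fun_prop))
    (fun q hq => ⟨ht, hq⟩)

theorem mv_lt {m : ℕ} {A : ℝ} (hA : 0 < A) (k : ℕ) {σ : ℝ} (hσ : σ ^ 2 = 1) {x y : ℝ}
    (h : x ^ 2 + y ^ 2 ≤ A ^ 2) : |(mv m A k σ (x, y)).1| < 4 * A := by
  have h1 : (Real.cos (ang m k) * x + -(σ * Real.sin (ang m k)) * y) ^ 2 ≤ A ^ 2 := by
    have h2 := Real.sin_sq_add_cos_sq (ang m k)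
    have h3 : (Real.cos (ang m k) * x + -(σ * Real.sin (ang m k)) * y) ^ 2 ≤
        (Real.cos (ang m k) ^ 2 + (σ * Real.sin (ang m k)) ^ 2) * (x ^ 2 + y ^ 2) := by
      nlinarith [sq_nonneg (Real.cos (ang m k) * y + (σ * Real.sin (ang m k)) * x)]
    have h4 : Real.cos (ang m k) ^ 2 + (σ * Real.sin (ang m k)) ^ 2 = 1 := by
      rw [mul_pow, hσ]
      linarith
    rw [h4, one_mul] at h3
    exact h3.trans h
  have h5 := abs_le_of_sq_le_sq' h1 hA.le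
  show |Real.cos (ang m k) * x + -(σ * Real.sin (ang m k)) * y + 2 * A| < 4 * A
  rw [abs_lt]
  constructor <;> linarith [h5.1, h5.2]

theorem main (ht : S_TWO) (hb : S_BDB) (he : S_EXT) (hw : S_WIN) (hn : S_WEN) (ha : S_ASY)
    (hm : S_MIR) (hp : S_NSW) (hf : S_FUW) : S_WFIN := by
  intro m A T w₀ hm1 hA hT hw₀
  have h4 : 0 < 4 * A := by linarith
  have hv := he m A w₀ hm1 hA hw₀
  obtain ⟨M, hM, hbM⟩ := hb (4 * A) (4 * A) _ h4 h4 hv
  obtain ⟨w, wt, wx, wy, wxx, wyy, wxy, h2⟩ := ht (4 * A) (4 * A) T M h4 h4 hT hM _ hbM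
  obtain ⟨vt, vxx, vyy, vxy, hS⟩ := ha m A T _ w wt wx wy wxx wyy wxy hA h2
  obtain ⟨hr1, hr2, hr3⟩ := hp _ _ _ _ _ _ _ _ (disc_open (2 * A)) hS
  have hini := hw m A T w₀ w wt wx wy wxx wyy wxy hm1 hA hT hw₀ h2
  have hene := hn m A T w₀ w wt wx wy wxx wyy wxy hm1 hA hT hw₀ h2
  have hN : ∀ x : Fin 3 → ℝ, x 0 ^ 2 + x 1 ^ 2 ≤ A ^ 2 →
      ((x 0, x 1) : ℝ × ℝ) ∈ {q : ℝ × ℝ | q.1 ^ 2 + q.2 ^ 2 < (2 * A) ^ 2} := fun x hx => by
    show x 0 ^ 2 + x 1 ^ 2 < (2 * A) ^ 2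
    nlinarith
  have hSsub : Sector m A ⊆ {q : ℝ × ℝ | q.1 ^ 2 + q.2 ^ 2 < (2 * A) ^ 2} := fun q hq => by
    have h5 : q.1 ^ 2 + q.2 ^ 2 < A ^ 2 := hq.1
    show q.1 ^ 2 + q.2 ^ 2 < (2 * A) ^ 2
    nlinarith
  have hSm : MeasurableSet (Sector m A) := (sector_open m A).measurableSet
  have hDm : ∀ c, MeasurableSet (SDuct m A c) := fun c => (sduct_open m A c).measurableSet
  have aem : ∀ g : ℝ × ℝ → ℝ, ContinuousOn g {q : ℝ × ℝ | q.1 ^ 2 + q.2 ^ 2 < (2 * A) ^ 2} →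
      AEMeasurable g (volume.restrict (Sector m A)) := fun g hg =>
    (hg.mono hSsub).aemeasurable hSm
  have hDN : ∀ c, ∀ x ∈ SDuct m A c,
      ((x 0, x 1) : ℝ × ℝ) ∈ {q : ℝ × ℝ | q.1 ^ 2 + q.2 ^ 2 < (2 * A) ^ 2} :=
    fun c x hx => hSsub hx.1
  refine ⟨par (asym m A w), ?_⟩
  refine { regular := ?_, axial := ?_, momentum := ?_, div := ?_, wall := ?_, rest := ?_,
           initial := ?_, energy := ?_ }
  · refine ⟨{x : Fin 3 → ℝ | (x 0, x 1) ∈ {q : ℝ × ℝ | q.1 ^ 2 + q.2 ^ 2 < (2 * A) ^ 2}},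
      (disc_open (2 * A)).preimage (by fun_prop), fun x hx => hN x hx, hr1, hr2, ?_⟩
    intro i k
    by_cases hk : k = 2
    · subst hk
      have hmap : ContinuousOn (fun q : ℝ × (Fin 3 → ℝ) => ((q.1, q.2 0, q.2 1) : ℝ × ℝ × ℝ))
          (Ioi 0 ×ˢ {x : Fin 3 → ℝ | (x 0, x 1) ∈
            {q : ℝ × ℝ | q.1 ^ 2 + q.2 ^ 2 < (2 * A) ^ 2}}) := by
        apply Continuous.continuousOn
        fun_prop
      have hmaps : MapsTo (fun q : ℝ × (Fin 3 → ℝ) => ((q.1, q.2 0, q.2 1) : ℝ × ℝ × ℝ))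
          (Ioi 0 ×ˢ {x : Fin 3 → ℝ | (x 0, x 1) ∈
            {q : ℝ × ℝ | q.1 ^ 2 + q.2 ^ 2 < (2 * A) ^ 2}})
          {q | 0 < q.1 ∧ q.2 ∈ {q : ℝ × ℝ | q.1 ^ 2 + q.2 ^ 2 < (2 * A) ^ 2}} :=
        fun q hq => ⟨hq.1, hq.2⟩
      fin_cases i
      · refine (hS.cxx.comp hmap hmaps).congr fun q hq => ?_
        exact (hr3 q.1 hq.1 q.2 hq.2).2.2.1
      · refine (hS.cyy.comp hmap hmaps).congr fun q hq => ?_
        exact (hr3 q.1 hq.1 q.2 hq.2).2.2.2.1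
      · refine (continuousOn_const (c := (0 : ℝ))).congr fun q hq => ?_
        exact (hr3 q.1 hq.1 q.2 hq.2).2.2.2.2
    · have e : (fun q : ℝ × (Fin 3 → ℝ) =>
          pd i (fun y => pd i (fun z => par (asym m A w) q.1 z k) y) q.2) = fun _ => 0 := by
        funext q
        simp only [par_of_ne _ _ _ k hk, pd_zero]
      rw [e]
      exact continuousOn_const
  · intro t x
    exact ⟨rfl, rfl⟩
  · intro t ht0 x hx k
    have h3 := hr3 t ht0 x (hN x hx)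
    by_cases hk : k = 2
    · subst hk
      rw [Fin.sum_univ_three, Fin.sum_univ_three, h3.2.2.1, h3.2.2.2.1, h3.2.2.2.2, h3.1.2.2]
      have e1 : deriv (fun s => par (asym m A w) s x 2) t = vt t (x 0) (x 1) :=
        (hS.dt t (x 0) (x 1) ht0 (hN x hx)).deriv
      have e2 : par (asym m A w) t x 0 = 0 := rfl
      have e3 : par (asym m A w) t x 1 = 0 := rfl
      rw [e1, e2, e3, hS.eq t _ _ ht0 (hN x hx)]
      ring
    · simp only [par_of_ne _ _ _ k hk, pd_zero]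
      simp
  · intro t ht0 x hx
    have h3 := hr3 t ht0 x (hN x hx)
    rw [Fin.sum_univ_three, h3.1.2.2, h3.2.1 0 0 (by decide), h3.2.1 1 1 (by decide)]
    simp
  · intro t ht0 r z hr0 hr1
    exact ⟨par_zero _ _ _ (hm m A w t r hm1).1, par_zero _ _ _ (hm m A w t r hm1).2⟩
  · intro t ht1 x hx
    refine par_zero _ _ _ ?_
    unfold asym
    refine Finset.sum_eq_zero fun k _ => ?_
    rw [h2.late t _ _ ht1 (mv_lt hA k (by norm_num) hx),
      h2.late t _ _ ht1 (mv_lt hA k (by norm_num) hx), sub_zero]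
  · intro c hc
    have h1 : Tendsto (fun t : ℝ => ENNReal.ofReal (2 * c) *
        ∫⁻ q in Sector m A, ‖asym m A w t q.1 q.2 - w₀ q‖ₑ ^ 2) (𝓝[>] 0) (𝓝 0) := by
      have := ENNReal.Tendsto.const_mul (a := ENNReal.ofReal (2 * c)) hini
        (Or.inr ENNReal.ofReal_ne_top)
      rwa [mul_zero] at this
    refine h1.congr' ?_
    filter_upwards [self_mem_nhdsWithin] with t htt
    have h5 : ∫⁻ x in SDuct m A c, ‖par (asym m A w) t x 2 - w₀ (x 0, x 1)‖ₑ ^ 2 =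
        ENNReal.ofReal (2 * c) * ∫⁻ q in Sector m A, ‖asym m A w t q.1 q.2 - w₀ q‖ₑ ^ 2 :=
      hf m A c (fun q => ‖asym m A w t q.1 q.2 - w₀ q‖ₑ ^ 2) hc
        (((aem _ (cont_w (hr2 t htt))).sub hw₀.1.aemeasurable).enorm.pow_const 2)
    exact h5.symm
  · intro c hc
    have hE : ∀ t ∈ Ioi (0 : ℝ), ∫⁻ x in SDuct m A c,
        ∑ i, ∑ k, ‖pd i (fun y => par (asym m A w) t y k) x‖ₑ ^ 2 =
          ENNReal.ofReal (2 * c) * ∫⁻ q in Sector m A,
            (‖asymx m A wx wy t q.1 q.2‖ₑ ^ 2 + ‖asymy m A wx wy t q.1 q.2‖ₑ ^ 2) := by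
      intro t ht0
      have ht0' : 0 < t := ht0
      have e1 : ∫⁻ x in SDuct m A c,
          ∑ i, ∑ k, ‖pd i (fun y => par (asym m A w) t y k) x‖ₑ ^ 2 =
          ∫⁻ x in SDuct m A c, (fun q : ℝ × ℝ => ‖asymx m A wx wy t q.1 q.2‖ₑ ^ 2 +
            ‖asymy m A wx wy t q.1 q.2‖ₑ ^ 2) (x 0, x 1) := by
        refine setLIntegral_congr_fun (hDm c) fun x hx => ?_
        have h3 := hr3 t ht0 x (hDN c x hx)
        simp only [Fin.sum_univ_three]
        rw [h3.2.1 0 0 (by decide), h3.2.1 0 1 (by decide), h3.2.1 1 0 (by decide),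
          h3.2.1 1 1 (by decide), h3.2.1 2 0 (by decide), h3.2.1 2 1 (by decide), h3.1.1,
          h3.1.2.1, h3.1.2.2]
        simp
      rw [e1]
      exact hf m A c (fun q : ℝ × ℝ => ‖asymx m A wx wy t q.1 q.2‖ₑ ^ 2 +
        ‖asymy m A wx wy t q.1 q.2‖ₑ ^ 2) hc
        (((aem _ (sec ht0' hS.cx)).enorm.pow_const 2).add
        ((aem _ (sec ht0' hS.cy)).enorm.pow_const 2))
    rw [setLIntegral_congr_fun measurableSet_Ioi hE,
      lintegral_const_mul' _ _ ENNReal.ofReal_ne_top]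
    exact ENNReal.mul_lt_top ENNReal.ofReal_lt_top hene

end Pool.Agent.H74.WG.T.WFIN
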