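import Pool.Agent.H74.WG.Stm
import Pool.Agent.H74.OD.T.INI
import Pool.Agent.H74.OD.T.BDB

/-! # Stub WG-WIN (helper44): initial data in the wedge -/

set_option autoImplicit false

namespace Pool.Agent.H74.WG.T.WIN

open MeasureTheory Filter Topology Set Pool.Agent.H74.OD
open scoped ENNReal
open Pool.Agent.H74.OD.T.INI (W W_cont enorm_sq)

lemma mv_cont (m : ℕ) (A : ℝ) (k : ℕ) (σ : ℝ) : Continuous (mv m A k σ) := by
  unfold mv
  fun_prop

lemma mv_qmp (hc : S_CHV) (m : ℕ) {A : ℝ} (hA : 0 < A) (k : ℕ) {σ : ℝ} (hσ : σ = 1 ∨ σ = -1) :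
    Measure.QuasiMeasurePreserving (mv m A k σ) (volume.restrict (Sector m A))
      (volume.restrict (Rec (4 * A) (4 * A))) := by
  refine ⟨(mv_cont m A k σ).measurable, Measure.AbsolutelyContinuous.mk fun s hs h0 => ?_⟩
  rw [Measure.map_apply (mv_cont m A k σ).measurable hs]
  have h1 := hc m A k σ (s.indicator 1) hA hσ
  rw [lintegral_indicator_one hs, h0] at h1
  have h2 : (fun q => s.indicator (1 : ℝ × ℝ → ℝ≥0∞) (mv m A k σ q)) =
      ((mv m A k σ) ⁻¹' s).indicator (1 : ℝ × ℝ → ℝ≥0∞) := by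
    funext q
    rfl
  rw [h2, lintegral_indicator_one ((mv_cont m A k σ).measurable hs)] at h1
  exact le_antisymm h1 bot_le

lemma sector_meas (m : ℕ) (A : ℝ) : MeasurableSet (Sector m A) := by
  have h1 : IsOpen {q : ℝ × ℝ | q.1 ^ 2 + q.2 ^ 2 < A ^ 2} := isOpen_lt (by fun_prop) continuous_const
  have h2 : IsOpen {q : ℝ × ℝ | 0 < q.2} := isOpen_lt continuous_const continuous_snd
  have h3 : IsOpen {q : ℝ × ℝ | 0 < Real.sin (Real.pi / m) * q.1 - Real.cos (Real.pi / m) * q.2} :=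
    isOpen_lt continuous_const (by fun_prop)
  exact (h1.inter (h2.inter h3)).measurableSet

lemma mv_lt (m : ℕ) {A : ℝ} (hA : 0 < A) (k : ℕ) {σ : ℝ} (hσ : σ = 1 ∨ σ = -1) {q : ℝ × ℝ}
    (hq : q ∈ Sector m A) : |(mv m A k σ q).1| < 4 * A := by
  have h1 : q.1 ^ 2 + q.2 ^ 2 < A ^ 2 := hq.1
  have h2 := Real.sin_sq_add_cos_sq (ang m k)
  have hs : σ ^ 2 = 1 := by rcases hσ with h | h <;> rw [h] <;> norm_num
  set c := Real.cos (ang m k) with hcd
  set s := Real.sin (ang m k) with hsd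
  have h3 : (c * q.1 + -(σ * s) * q.2) ^ 2 ≤ q.1 ^ 2 + q.2 ^ 2 := by
    have h4 : 0 ≤ (c * q.2 + σ * s * q.1) ^ 2 := sq_nonneg _
    have h5 : (c * q.1 + -(σ * s) * q.2) ^ 2 + (c * q.2 + σ * s * q.1) ^ 2 =
        (c ^ 2 + σ ^ 2 * s ^ 2) * (q.1 ^ 2 + q.2 ^ 2) := by ring
    have h6 : c ^ 2 + σ ^ 2 * s ^ 2 = 1 := by rw [hs]; linarith
    rw [h6, one_mul] at h5
    linarith
  have h7 : |c * q.1 + -(σ * s) * q.2| < A :=
    abs_lt_of_sq_lt_sq (lt_of_le_of_lt h3 h1) hA.le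
  rw [abs_lt] at h7
  show |c * q.1 + -(σ * s) * q.2 + 2 * A| < 4 * A
  rw [abs_lt]
  constructor <;> linarith [h7.1, h7.2]

lemma sum_sq_le (m : ℕ) (f g : ℕ → ℝ) :
    ‖∑ k ∈ Finset.range m, (f k - g k)‖ₑ ^ 2 ≤
      ENNReal.ofReal (2 * m) * ∑ k ∈ Finset.range m, (‖f k‖ₑ ^ 2 + ‖g k‖ₑ ^ 2) := by
  have h1 : (∑ k ∈ Finset.range m, (f k - g k)) ^ 2 ≤
      (2 * m) * ∑ k ∈ Finset.range m, (f k ^ 2 + g k ^ 2) := by
    have h2 := sq_sum_le_card_mul_sum_sq (s := Finset.range m) (f := fun k => f k - g k)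
    rw [Finset.card_range] at h2
    refine h2.trans ?_
    have h3 : ∑ k ∈ Finset.range m, (f k - g k) ^ 2 ≤
        ∑ k ∈ Finset.range m, 2 * (f k ^ 2 + g k ^ 2) :=
      Finset.sum_le_sum fun k _ => by nlinarith [sq_nonneg (f k + g k)]
    rw [← Finset.mul_sum] at h3
    calc (m : ℝ) * ∑ k ∈ Finset.range m, (f k - g k) ^ 2
        ≤ (m : ℝ) * (2 * ∑ k ∈ Finset.range m, (f k ^ 2 + g k ^ 2)) :=
          mul_le_mul_of_nonneg_left h3 (Nat.cast_nonneg m)
      _ = _ := by ring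
  rw [enorm_sq]
  refine (ENNReal.ofReal_le_ofReal h1).trans ?_
  rw [ENNReal.ofReal_mul (by positivity), ENNReal.ofReal_sum_of_nonneg (fun k _ => by positivity)]
  refine mul_le_mul_right (Finset.sum_le_sum fun k _ => ?_) _
  rw [ENNReal.ofReal_add (sq_nonneg _) (sq_nonneg _), enorm_sq, enorm_sq]

theorem main (hi : Pool.Agent.H74.OD.S_INI) (hg : S_GEO) (hc : S_CHV) (he : S_EXT) : S_WIN := by
  intro m A T w₀ w wt wx wy wxx wyy wxy hm hA hT hw₀ hTwo
  have hY : 0 < 4 * A := by linarith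
  set v : ℝ × ℝ → ℝ := ext m A w₀ with hvdef
  have hv : MemLp v 2 (volume.restrict (Rec (4 * A) (4 * A))) := he m A w₀ hm hA hw₀
  set b : ℕ × ℕ → ℝ := fun p => bc (4 * A) (4 * A) v p.1 p.2 with hbdef
  obtain ⟨M, hM, hb0⟩ := Pool.Agent.H74.OD.T.BDB.main (4 * A) (4 * A) v hY hY hv
  have hb : ∀ p, |b p| ≤ M := fun p => hb0 p.1 p.2
  set I : ℝ → ℝ≥0∞ := fun t => ∫⁻ q in Rec (4 * A) (4 * A), ‖W (4 * A) (4 * A) t b q - v q‖ₑ ^ 2
    with hIdef
  have hI : Tendsto I (𝓝[>] 0) (𝓝 0) := hi (4 * A) (4 * A) v hY hY hv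
  have hT2 : 0 < T / 2 := by linarith
  -- the bound for small times
  have hle : ∀ t, 0 < t → t ≤ T / 2 →
      ∫⁻ q in Sector m A, ‖asym m A w t q.1 q.2 - w₀ q‖ₑ ^ 2 ≤
        ENNReal.ofReal (2 * m) * (m * 2) * I t := by
    intro t ht htT
    set D : ℝ × ℝ → ℝ≥0∞ := fun q => ‖W (4 * A) (4 * A) t b q - v q‖ₑ ^ 2 with hDdef
    have hDm : AEMeasurable D (volume.restrict (Rec (4 * A) (4 * A))) :=
      (((W_cont hY hY ht hb).aestronglyMeasurable.sub hv.1).enorm).pow_const 2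
    have hD1 : ∀ k, AEMeasurable (fun q => D (mv m A k 1 q)) (volume.restrict (Sector m A)) :=
      fun k => hDm.comp_quasiMeasurePreserving (mv_qmp hc m hA k (Or.inl rfl))
    have hD2 : ∀ k, AEMeasurable (fun q => D (mv m A k (-1) q)) (volume.restrict (Sector m A)) :=
      fun k => hDm.comp_quasiMeasurePreserving (mv_qmp hc m hA k (Or.inr rfl))
    have hpt : ∀ q ∈ Sector m A, ‖asym m A w t q.1 q.2 - w₀ q‖ₑ ^ 2 ≤
        ENNReal.ofReal (2 * m) * ∑ k ∈ Finset.range m, (D (mv m A k 1 q) + D (mv m A k (-1) q)) := by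
      intro q hq
      obtain ⟨g1, g2⟩ := hg m A w₀ hm hA q hq
      have e1 : ∀ (k : ℕ) (σ : ℝ), (σ = 1 ∨ σ = -1) →
          w t (mv m A k σ q).1 (mv m A k σ q).2 = W (4 * A) (4 * A) t b (mv m A k σ q) := by
        intro k σ hσ
        exact hTwo.early t _ _ ht htT (mv_lt m hA k hσ hq)
      have e2 : asym m A w t q.1 q.2 - w₀ q = ∑ k ∈ Finset.range m,
          ((W (4 * A) (4 * A) t b (mv m A k 1 q) - v (mv m A k 1 q)) -
            (W (4 * A) (4 * A) t b (mv m A k (-1) q) - v (mv m A k (-1) q))) := by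
        have e3 : ∑ k ∈ Finset.range m, (v (mv m A k 1 q) - v (mv m A k (-1) q)) = w₀ q := by
          have e4 : ∀ k ∈ Finset.range m, v (mv m A k 1 q) - v (mv m A k (-1) q) =
              if k = 0 then w₀ q else 0 := by
            intro k hk
            rw [hvdef, g1 k (Finset.mem_range.1 hk), g2 k (Finset.mem_range.1 hk), sub_zero]
          rw [Finset.sum_congr rfl e4, Finset.sum_ite_eq' (Finset.range m) 0 fun _ => w₀ q,
            if_pos (Finset.mem_range.2 (by omega))]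
        have e5 : asym m A w t q.1 q.2 = ∑ k ∈ Finset.range m,
            (W (4 * A) (4 * A) t b (mv m A k 1 q) - W (4 * A) (4 * A) t b (mv m A k (-1) q)) := by
          unfold asym
          refine Finset.sum_congr rfl fun k _ => ?_
          rw [← e1 k 1 (Or.inl rfl), ← e1 k (-1) (Or.inr rfl)]
        rw [e5, ← e3, ← Finset.sum_sub_distrib]
        refine Finset.sum_congr rfl fun k _ => ?_
        ring
      rw [e2]
      exact sum_sq_le m _ _
    calc ∫⁻ q in Sector m A, ‖asym m A w t q.1 q.2 - w₀ q‖ₑ ^ 2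
        ≤ ∫⁻ q in Sector m A, ENNReal.ofReal (2 * m) *
            ∑ k ∈ Finset.range m, (D (mv m A k 1 q) + D (mv m A k (-1) q)) :=
          setLIntegral_mono' (sector_meas m A) hpt
      _ = ENNReal.ofReal (2 * m) * ∑ k ∈ Finset.range m,
            ((∫⁻ q in Sector m A, D (mv m A k 1 q)) + ∫⁻ q in Sector m A, D (mv m A k (-1) q)) := by
          have hsum : ∀ k ∈ Finset.range m, AEMeasurable
              (fun q => D (mv m A k 1 q) + D (mv m A k (-1) q)) (volume.restrict (Sector m A)) :=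
            fun k _ => (hD1 k).add (hD2 k)
          rw [lintegral_const_mul' _ _ ENNReal.ofReal_ne_top, lintegral_finsetSum' _ hsum]
          congr 1
          refine Finset.sum_congr rfl fun k _ => ?_
          rw [lintegral_add_left' (hD1 k)]
      _ ≤ ENNReal.ofReal (2 * m) * ∑ k ∈ Finset.range m, (I t + I t) := by
          refine mul_le_mul_right (Finset.sum_le_sum fun k _ => add_le_add ?_ ?_) _
          · exact hc m A k 1 D hA (Or.inl rfl)
          · exact hc m A k (-1) D hA (Or.inr rfl)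
      _ = ENNReal.ofReal (2 * m) * (m * 2) * I t := by
          rw [Finset.sum_const, Finset.card_range, nsmul_eq_mul, ← two_mul]
          ring
  have hC : ENNReal.ofReal (2 * m) * (m * 2) ≠ ⊤ :=
    ENNReal.mul_ne_top ENNReal.ofReal_ne_top
      (ENNReal.mul_ne_top (ENNReal.natCast_ne_top m) ENNReal.ofNat_ne_top)
  have hlim : Tendsto (fun t => ENNReal.ofReal (2 * m) * (m * 2) * I t) (𝓝[>] 0) (𝓝 0) := by
    have := ENNReal.Tendsto.const_mul hI (Or.inr hC)
    rwa [mul_zero] at this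
  refine tendsto_of_tendsto_of_tendsto_of_le_of_le' tendsto_const_nhds hlim
    (Eventually.of_forall fun _ => bot_le) ?_
  filter_upwards [Ioc_mem_nhdsGT hT2] with t ht
  exact hle t ht.1 ht.2

end Pool.Agent.H74.WG.T.WIN
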